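import Mathlib

/-!
# Fractional median structures of digraphs

`exists_greedy`: a stable set dominating (through out-arcs) at least half of a given weight.
`exists_game`: the minimax consequence, a distribution on stable sets which dominates every vertex
with probability at least one half (a vertex of the set itself counts one half).
`process`: the load process: a fractional colouring together with a rank function of the vertices.
-/

set_option autoImplicit false
set_option linter.unusedSectionVars false

namespace Pool.Helper49.FracBurr

open Finset
open scoped Classical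

variable {V : Type} [Fintype V]

/-- A set of vertices without arcs between different members. -/
def Stab (R : V → V → Prop) (S : Finset V) : Prop :=
  ∀ v ∈ S, ∀ w ∈ S, v ≠ w → ¬ R v w

theorem stab_swap {R : V → V → Prop} {S : Finset V} (h : Stab (fun a b => R b a) S) :
    Stab R S := fun v hv w hw hne => h w hw v hv hne.symm

/-- The pay-off of the stable set `S` against the vertex `v`. -/
noncomputable def pay (R : V → V → Prop) (S : Finset V) (v : V) : ℝ :=
  if ∃ w ∈ S, w ≠ v ∧ R v w then 1 else if v ∈ S then 1 / 2 else 0

theorem pay_nonneg (R : V → V → Prop) (S : Finset V) (v : V) : 0 ≤ pay R S v := by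
  unfold pay; split_ifs <;> norm_num

theorem pay_mono (R : V → V → Prop) {S S' : Finset V} (h : S ⊆ S') (v : V) :
    pay R S v ≤ pay R S' v := by
  unfold pay
  by_cases h1 : ∃ w ∈ S, w ≠ v ∧ R v w
  · obtain ⟨w, hw, hw'⟩ := h1
    rw [if_pos ⟨w, hw, hw'⟩, if_pos ⟨w, h hw, hw'⟩]
  · rw [if_neg h1]
    by_cases h2 : v ∈ S
    · rw [if_pos h2]
      split_ifs with h3 h4
      · norm_num
      · exact le_refl _
      · exact absurd (h h2) h4
    · rw [if_neg h2]; split_ifs <;> norm_num

/-- Greedy: a stable subset of `A` which dominates at least half of the weight. -/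
theorem exists_greedy (R : V → V → Prop) (u : V → ℝ) (hu : ∀ v, 0 ≤ u v) (A : Finset V) :
    ∃ S ⊆ A, Stab R S ∧ (∑ v ∈ A, u v) / 2 ≤ ∑ v ∈ A, u v * pay R S v := by
  induction A using Finset.strongInduction with
  | H A ih =>
    rcases A.eq_empty_or_nonempty with rfl | hA
    · exact ⟨∅, Subset.refl _, fun v hv => absurd hv (notMem_empty v), by simp⟩
    · -- choose v
      have hex : ∃ v ∈ A, ∑ x ∈ A.filter (fun x => x ≠ v ∧ R v x), u x ≤
          ∑ x ∈ A.filter (fun x => x ≠ v ∧ R x v), u x := by
        by_contra hcon
        push Not at hcon
        have e : ∑ v ∈ A, u v * ∑ x ∈ A.filter (fun x => x ≠ v ∧ R v x), u x =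
            ∑ v ∈ A, u v * ∑ x ∈ A.filter (fun x => x ≠ v ∧ R x v), u x := by
          simp only [Finset.sum_filter, Finset.mul_sum]
          rw [Finset.sum_comm]
          refine Finset.sum_congr rfl fun x _ => Finset.sum_congr rfl fun v _ => ?_
          by_cases h : x ≠ v ∧ R v x
          · rw [if_pos h, if_pos ⟨h.1.symm, h.2⟩]; ring
          · rw [if_neg h, if_neg (fun h' => h ⟨h'.1.symm, h'.2⟩)]; simp
        by_cases hz : ∃ v ∈ A, u v ≠ 0
        · obtain ⟨v, hv, hv0⟩ := hz
          have : ∑ v ∈ A, u v * ∑ x ∈ A.filter (fun x => x ≠ v ∧ R x v), u x <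
              ∑ v ∈ A, u v * ∑ x ∈ A.filter (fun x => x ≠ v ∧ R v x), u x := by
            refine Finset.sum_lt_sum
              (fun x hx => mul_le_mul_of_nonneg_left (hcon x hx).le (hu x))
              ⟨v, hv, mul_lt_mul_of_pos_left (hcon v hv) (lt_of_le_of_ne (hu v) (Ne.symm hv0))⟩
          rw [e] at this
          exact lt_irrefl _ this
        · push Not at hz
          obtain ⟨v, hv⟩ := hA
          have h1 := hcon v hv
          have h2 : ∑ x ∈ A.filter (fun x => x ≠ v ∧ R v x), u x = 0 :=
            Finset.sum_eq_zero fun x hx => hz x (mem_filter.1 hx).1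
          have h3 : 0 ≤ ∑ x ∈ A.filter (fun x => x ≠ v ∧ R x v), u x :=
            Finset.sum_nonneg fun x _ => hu x
          linarith
      obtain ⟨v, hv, hle⟩ := hex
      set A' := A.filter (fun x => x ≠ v ∧ ¬ R v x ∧ ¬ R x v) with hA'
      have hsub : A' ⊂ A := by
        refine (Finset.ssubset_iff_of_subset (filter_subset _ _)).2 ⟨v, hv, ?_⟩
        intro h
        exact (mem_filter.1 h).2.1 rfl
      obtain ⟨S', hS', hst, hw⟩ := ih A' hsub
      refine ⟨insert v S', ?_, ?_, ?_⟩
      · intro x hx
        rcases mem_insert.1 hx with rfl | hx
        · exact hv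
        · exact (mem_filter.1 (hS' hx)).1
      · intro x hx y hy hxy
        rcases mem_insert.1 hx with hx1 | hx1
        · rcases mem_insert.1 hy with hy1 | hy1
          · exact absurd (hx1.trans hy1.symm) hxy
          · rw [hx1]; exact (mem_filter.1 (hS' hy1)).2.2.1
        · rcases mem_insert.1 hy with hy1 | hy1
          · rw [hy1]; exact (mem_filter.1 (hS' hx1)).2.2.2
          · exact hst x hx1 y hy1 hxy
      · -- the pointwise bound
        have hpt : ∀ x ∈ A, (if x = v then u x / 2 else 0) +
            (if x ≠ v ∧ R x v then u x else 0) + (if x ∈ A' then u x * pay R S' x else 0) ≤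
            u x * pay R (insert v S') x := by
          intro x hx
          by_cases h1 : x = v
          · subst h1
            have h2 : x ∉ A' := fun h => (mem_filter.1 h).2.1 rfl
            rw [if_pos rfl, if_neg (fun h => h.1 rfl), if_neg h2]
            have h3 : (1 : ℝ) / 2 ≤ pay R (insert x S') x := by
              unfold pay
              rw [if_pos (mem_insert_self x S')]
              split_ifs <;> norm_num
            have := mul_le_mul_of_nonneg_left h3 (hu x)
            linarith
          · rw [if_neg h1]
            by_cases h2 : R x v
            · have h3 : x ∉ A' := fun h => (mem_filter.1 h).2.2.2 h2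
              rw [if_pos ⟨h1, h2⟩, if_neg h3]
              have h4 : pay R (insert v S') x = 1 := by
                unfold pay
                rw [if_pos ⟨v, mem_insert_self _ _, Ne.symm h1, h2⟩]
              rw [h4]; linarith
            · rw [if_neg (fun h => h2 h.2)]
              by_cases h3 : x ∈ A'
              · rw [if_pos h3]
                have := mul_le_mul_of_nonneg_left
                  (pay_mono R (subset_insert v S') x) (hu x)
                linarith
              · rw [if_neg h3]
                have := mul_nonneg (hu x) (pay_nonneg R (insert v S') x)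
                linarith
        have hsum := Finset.sum_le_sum hpt
        rw [Finset.sum_add_distrib, Finset.sum_add_distrib] at hsum
        have e1 : ∑ x ∈ A, (if x = v then u x / 2 else 0) = u v / 2 := by
          rw [Finset.sum_ite_eq' A v (fun x => u x / 2)]
          rw [if_pos hv]
        have e2 : ∑ x ∈ A, (if x ≠ v ∧ R x v then u x else 0) =
            ∑ x ∈ A.filter (fun x => x ≠ v ∧ R x v), u x := by
          rw [Finset.sum_filter]
        have e3 : ∑ x ∈ A, (if x ∈ A' then u x * pay R S' x else 0) =
            ∑ x ∈ A', u x * pay R S' x := by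
          rw [← Finset.sum_filter]
          refine Finset.sum_congr ?_ fun _ _ => rfl
          ext x
          simp only [mem_filter]
          constructor
          · exact fun h => h.2
          · exact fun h => ⟨(mem_filter.1 h).1, h⟩
        -- the total weight
        have e4 : ∑ x ∈ A, u x ≤ u v + ∑ x ∈ A.filter (fun x => x ≠ v ∧ R x v), u x +
            ∑ x ∈ A.filter (fun x => x ≠ v ∧ R v x), u x + ∑ x ∈ A', u x := by
          have h1 : ∀ x ∈ A, u x ≤ (if x = v then u x else 0) +
              (if x ≠ v ∧ R x v then u x else 0) + (if x ≠ v ∧ R v x then u x else 0) +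
              (if x ≠ v ∧ ¬ R v x ∧ ¬ R x v then u x else 0) := by
            intro x _
            have := hu x
            by_cases h1 : x = v
            · rw [if_pos h1]
              have a1 : 0 ≤ (if x ≠ v ∧ R x v then u x else 0) := by split_ifs <;> linarith
              have a2 : 0 ≤ (if x ≠ v ∧ R v x then u x else 0) := by split_ifs <;> linarith
              have a3 : 0 ≤ (if x ≠ v ∧ ¬ R v x ∧ ¬ R x v then u x else 0) := by
                split_ifs <;> linarith
              linarith
            · rw [if_neg h1]
              by_cases h2 : R x v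
              · rw [if_pos (show x ≠ v ∧ R x v from ⟨h1, h2⟩)]
                have a2 : 0 ≤ (if x ≠ v ∧ R v x then u x else 0) := by split_ifs <;> linarith
                have a3 : 0 ≤ (if x ≠ v ∧ ¬ R v x ∧ ¬ R x v then u x else 0) := by
                  split_ifs <;> linarith
                linarith
              · rw [if_neg (show ¬ (x ≠ v ∧ R x v) from fun h => h2 h.2)]
                by_cases h3 : R v x
                · rw [if_pos (show x ≠ v ∧ R v x from ⟨h1, h3⟩)]
                  have a3 : 0 ≤ (if x ≠ v ∧ ¬ R v x ∧ ¬ R x v then u x else 0) := by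
                    split_ifs <;> linarith
                  linarith
                · rw [if_neg (show ¬ (x ≠ v ∧ R v x) from fun h => h3 h.2),
                    if_pos (show x ≠ v ∧ ¬ R v x ∧ ¬ R x v from ⟨h1, h3, h2⟩)]
                  linarith
          have h2 := Finset.sum_le_sum h1
          rw [Finset.sum_add_distrib, Finset.sum_add_distrib, Finset.sum_add_distrib] at h2
          rw [Finset.sum_ite_eq' A v u, if_pos hv] at h2
          rw [← Finset.sum_filter, ← Finset.sum_filter, ← Finset.sum_filter] at h2
          exact h2
        rw [e1, e2, e3] at hsum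
        linarith

end Pool.Helper49.FracBurr
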