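import Pool.Agent.Helper49.FracBurr.Embed

/-!
# From fractional to ordinary colourings (greedy covering)
-/

set_option autoImplicit false
set_option linter.unusedSectionVars false

namespace Pool.Helper49.FracBurr

open Finset
open scoped Classical

variable {V : Type} [Fintype V]

/-- The harmonic numbers. -/
noncomputable def harm (n : ℕ) : ℝ := ∑ i ∈ range n, (1 : ℝ) / (i + 1)

theorem harm_succ (n : ℕ) : harm (n + 1) = harm n + 1 / (n + 1) := by
  unfold harm; rw [Finset.sum_range_succ]

theorem harm_mono {a b : ℕ} (h : a ≤ b) : harm a ≤ harm b := by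
  induction b, h using Nat.le_induction with
  | base => exact le_refl _
  | succ n _ ih =>
    rw [harm_succ]
    have : (0 : ℝ) ≤ 1 / (n + 1) := by positivity
    linarith

theorem harm_add (a b s : ℕ) (h : a + b ≤ s) : harm a + b / s ≤ harm (a + b) := by
  induction b with
  | zero => simp
  | succ b ih =>
    have h1 := ih (by omega)
    have e : a + (b + 1) = (a + b) + 1 := by ring
    rw [e, harm_succ]
    have hs : (0 : ℝ) < s := by
      have : 0 < s := by omega
      exact_mod_cast this
    have h2 : (1 : ℝ) / s ≤ 1 / (((a + b : ℕ) : ℝ) + 1) := by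
      apply one_div_le_one_div_of_le
      · positivity
      · have : a + b + 1 ≤ s := by omega
        exact_mod_cast this
    have h3 : ((b + 1 : ℕ) : ℝ) / s = b / s + 1 / s := by
      push_cast; ring
    rw [h3]
    linarith

/-- Greedy covering by stable sets with prices. -/
theorem greedy_cover (R : V → V → Prop) (A : Finset V) :
    ∃ (n : ℕ) (π : V → ℝ) (col : V → ℕ), (∀ v, 0 ≤ π v) ∧ (n : ℝ) = ∑ v ∈ A, π v ∧
      (∀ v ∈ A, col v < n) ∧ (∀ v ∈ A, ∀ w ∈ A, v ≠ w → R v w → col v ≠ col w) ∧
      ∀ S ⊆ A, Stab R S → ∑ v ∈ S, π v ≤ harm S.card := by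
  induction A using Finset.strongInduction with
  | H A ih =>
    rcases A.eq_empty_or_nonempty with rfl | hA
    · refine ⟨0, fun _ => 0, fun _ => 0, fun _ => le_refl _, by simp, ?_, ?_, ?_⟩
      · intro v hv; exact absurd hv (notMem_empty v)
      · intro v hv; exact absurd hv (notMem_empty v)
      · intro S hS _
        rw [subset_empty.1 hS]
        simp [harm]
    · obtain ⟨S0, hS0, hmax⟩ := Finset.exists_max_image
        (A.powerset.filter (fun S => Stab R S)) Finset.card
        ⟨∅, mem_filter.2 ⟨mem_powerset.2 (empty_subset _),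
          fun v hv => absurd hv (notMem_empty v)⟩⟩
      obtain ⟨hS0A, hS0st⟩ := mem_filter.1 hS0
      rw [mem_powerset] at hS0A
      have hmax' : ∀ S ⊆ A, Stab R S → S.card ≤ S0.card := fun S hS hst =>
        hmax S (mem_filter.2 ⟨mem_powerset.2 hS, hst⟩)
      have hpos : 0 < S0.card := by
        obtain ⟨v, hv⟩ := hA
        have := hmax' {v} (singleton_subset_iff.2 hv) (by
          intro a ha b hb hab
          rw [mem_singleton] at ha hb
          exact absurd (ha.trans hb.symm) hab)
        rw [card_singleton] at this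
        omega
      have hsub : A \ S0 ⊂ A := by
        obtain ⟨v, hv⟩ := Finset.card_pos.1 hpos
        exact (Finset.ssubset_iff_of_subset sdiff_subset).2
          ⟨v, hS0A hv, fun h => (mem_sdiff.1 h).2 hv⟩
      obtain ⟨n, π, col, hπ, hn, hc1, hc2, hpr⟩ := ih (A \ S0) hsub
      refine ⟨n + 1, fun v => if v ∈ S0 then 1 / S0.card else π v,
        fun v => if v ∈ S0 then n else col v, ?_, ?_, ?_, ?_, ?_⟩
      · intro v
        show 0 ≤ (if v ∈ S0 then (1 : ℝ) / S0.card else π v)
        split_ifs
        · positivity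
        · exact hπ v
      · rw [← Finset.sum_sdiff hS0A]
        have e1 : ∑ v ∈ A \ S0, (if v ∈ S0 then (1 : ℝ) / S0.card else π v) =
            ∑ v ∈ A \ S0, π v :=
          Finset.sum_congr rfl fun v hv => if_neg (mem_sdiff.1 hv).2
        have e2 : ∑ v ∈ S0, (if v ∈ S0 then (1 : ℝ) / S0.card else π v) = 1 := by
          rw [Finset.sum_congr rfl (g := fun _ => (1 : ℝ) / S0.card) fun v hv => if_pos hv]
          rw [Finset.sum_const, nsmul_eq_mul, mul_one_div_cancel]
          exact_mod_cast hpos.ne'
        rw [e1, e2, ← hn]; push_cast; ring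
      · intro v hv
        show (if v ∈ S0 then n else col v) < n + 1
        split_ifs with h
        · omega
        · have := hc1 v (mem_sdiff.2 ⟨hv, h⟩); omega
      · intro v hv w hw hvw hR
        show (if v ∈ S0 then n else col v) ≠ (if w ∈ S0 then n else col w)
        by_cases h1 : v ∈ S0
        · by_cases h2 : w ∈ S0
          · exact absurd hR (hS0st v h1 w h2 hvw)
          · rw [if_pos h1, if_neg h2]
            have := hc1 w (mem_sdiff.2 ⟨hw, h2⟩); omega
        · by_cases h2 : w ∈ S0
          · rw [if_neg h1, if_pos h2]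
            have := hc1 v (mem_sdiff.2 ⟨hv, h1⟩); omega
          · rw [if_neg h1, if_neg h2]
            exact hc2 v (mem_sdiff.2 ⟨hv, h1⟩) w (mem_sdiff.2 ⟨hw, h2⟩) hvw hR
      · intro S hS hst
        have e0 : (S \ S0).card + (S ∩ S0).card = S.card := Finset.card_sdiff_add_card_inter S S0
        have e1 : ∑ v ∈ S, (if v ∈ S0 then (1 : ℝ) / S0.card else π v) =
            ∑ v ∈ S \ S0, π v + ((S ∩ S0).card : ℝ) / S0.card := by
          rw [← Finset.sum_sdiff (inter_subset_left : S ∩ S0 ⊆ S)]
          have e2 : S \ (S ∩ S0) = S \ S0 := by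
            ext x; simp only [mem_sdiff, mem_inter]; tauto
          rw [e2]
          congr 1
          · exact Finset.sum_congr rfl fun v hv => if_neg (mem_sdiff.1 hv).2
          · rw [Finset.sum_congr rfl (g := fun _ => (1 : ℝ) / S0.card)
              fun v hv => if_pos (mem_inter.1 hv).2]
            rw [Finset.sum_const, nsmul_eq_mul]; ring
        rw [e1]
        have h1 := hpr (S \ S0) (sdiff_subset_sdiff hS (Subset.refl _))
          (fun v hv w hw => hst v (mem_sdiff.1 hv).1 w (mem_sdiff.1 hw).1)
        have h2 := harm_add (S \ S0).card (S ∩ S0).card S0.card (by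
          rw [e0]; exact hmax' S hS hst)
        rw [← e0]
        linarith

/-- The fractional relaxation loses at most a harmonic factor. -/
theorem exists_colouring (R : V → V → Prop) (a : ℕ) (ha : ∀ S : Finset V, Stab R S → S.card ≤ a)
    (l : Finset V → ℝ) (h0 : ∀ S, 0 ≤ l S) (hs : ∀ S, l S ≠ 0 → Stab R S)
    (h1 : ∀ v, 1 ≤ load l v) :
    ∃ (n : ℕ) (col : V → ℕ), (n : ℝ) ≤ harm a * ∑ S, l S ∧ (∀ v, col v < n) ∧
      ∀ v w, v ≠ w → R v w → col v ≠ col w := by
  obtain ⟨n, π, col, hπ, hn, hc1, hc2, hpr⟩ := greedy_cover R (univ : Finset V)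
  refine ⟨n, col, ?_, fun v => hc1 v (mem_univ v),
    fun v w => hc2 v (mem_univ v) w (mem_univ w)⟩
  rw [hn]
  calc ∑ v, π v ≤ ∑ v, π v * load l v := Finset.sum_le_sum fun v _ => by
        have := mul_le_mul_of_nonneg_left (h1 v) (hπ v)
        linarith
    _ = ∑ S, l S * ∑ v ∈ S, π v := by
        unfold load
        simp only [Finset.mul_sum]
        rw [Finset.sum_comm]
        refine Finset.sum_congr rfl fun S _ => ?_
        have : ∑ v ∈ S, l S * π v = ∑ v, if v ∈ S then l S * π v else 0 := by
          rw [← Finset.sum_filter]; congr 1; ext v; simp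
        rw [this]
        refine Finset.sum_congr rfl fun v _ => ?_
        split_ifs <;> ring
    _ ≤ ∑ S, l S * harm a := Finset.sum_le_sum fun S _ => by
        by_cases hS : l S = 0
        · rw [hS]; simp
        · exact mul_le_mul_of_nonneg_left
            ((hpr S (subset_univ S) (hs S hS)).trans (harm_mono (ha S (hs S hS)))) (h0 S)
    _ = harm a * ∑ S, l S := by rw [← Finset.sum_mul, mul_comm]

end Pool.Helper49.FracBurr
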