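import Pool.Agent.Helper49.FracBurr.Process

/-!
# Greedy embedding of a rooted oriented tree along a rank function
-/

set_option autoImplicit false
set_option linter.unusedSectionVars false

namespace Pool.Helper49.FracBurr

open Finset
open scoped Classical

variable {V : Type} [Fintype V]

/-- The relation of sign `s`: forward for `true`, backward for `false`. -/
def Sg (R : V → V → Prop) (s : Bool) (a b : V) : Prop := if s then R a b else R b a

/-- Greedy embedding: either an embedding or a trapped used set. -/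
theorem greedy {W : Type} [Fintype W] (r : W) (p : W → W) (d : W → ℕ) (σ : W → Bool)
    (hd : ∀ i, i ≠ r → d (p i) < d i) (R : V → V → Prop) (m : V → ℕ) (hV : Nonempty V) :
    (∃ φ : W → V, Function.Injective φ ∧ ∀ i, i ≠ r → Sg R (σ i) (φ (p i)) (φ i)) ∨
    (∃ U : Finset V, U.card < Fintype.card W ∧ ∀ v, ∃ y ∈ U, m y ≤ m v ∧
      ∃ i, i ≠ r ∧ ∀ z, m z ≤ m v → Sg R (σ i) y z → z ∈ U) := by
  by_cases hfail : ∃ U : Finset V, U.card < Fintype.card W ∧ ∀ v, ∃ y ∈ U, m y ≤ m v ∧
      ∃ i, i ≠ r ∧ ∀ z, m z ≤ m v → Sg R (σ i) y z → z ∈ U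
  · exact Or.inr hfail
  left
  obtain ⟨v0, -, hv0⟩ := Finset.exists_min_image (univ : Finset V) m
    ⟨hV.some, mem_univ _⟩
  have hmain : ∀ n, 1 ≤ n → n ≤ Fintype.card W → ∃ (X : Finset W) (φ : W → V), X.card = n ∧
      r ∈ X ∧ (∀ i ∈ X, i ≠ r → p i ∈ X) ∧ φ r = v0 ∧ Set.InjOn φ X ∧
      (∀ i ∈ X, i ≠ r → Sg R (σ i) (φ (p i)) (φ i)) ∧
      (∀ i ∈ X, i ≠ r → ∀ z, Sg R (σ i) (φ (p i)) z → m z < m (φ i) → z ∈ X.image φ) := by
    intro n hn
    induction n, hn using Nat.le_induction with
    | base =>
      intro _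
      refine ⟨{r}, fun _ => v0, card_singleton r, mem_singleton_self r, ?_, rfl, ?_, ?_, ?_⟩
      · intro i hi hir; exact absurd (mem_singleton.1 hi) hir
      · intro a ha b hb _
        rw [mem_singleton.1 (mem_coe.1 ha), mem_singleton.1 (mem_coe.1 hb)]
      · intro i hi hir; exact absurd (mem_singleton.1 hi) hir
      · intro i hi hir; exact absurd (mem_singleton.1 hi) hir
    | succ n hn ih =>
      intro hcard
      obtain ⟨X, φ, hX, hr, hcl, hφr, hinj, harc, hgr⟩ := ih (by omega)
      -- the next vertex
      have hne : (univ \ X).Nonempty := by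
        rw [← Finset.card_pos, Finset.card_sdiff_of_subset (subset_univ X), card_univ]
        omega
      obtain ⟨i, hi, himin⟩ := Finset.exists_min_image (univ \ X) d hne
      have hiX : i ∉ X := (mem_sdiff.1 hi).2
      have hir : i ≠ r := fun h => hiX (h ▸ hr)
      have hpi : p i ∈ X := by
        by_contra h
        have := himin (p i) (mem_sdiff.2 ⟨mem_univ _, h⟩)
        exact absurd (hd i hir) (not_lt.2 this)
      by_cases hZ : (univ.filter (fun z => z ∉ X.image φ ∧ Sg R (σ i) (φ (p i)) z)).Nonempty
      · obtain ⟨z, hz, hzmin⟩ := Finset.exists_min_image _ m hZ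
        obtain ⟨-, hzX, hzR⟩ := mem_filter.1 hz
        have hup : ∀ j ∈ X, Function.update φ i z j = φ j := fun j hj =>
          Function.update_of_ne (fun h => hiX (by rw [← h]; exact hj)) _ _
        have hupi : Function.update φ i z i = z := Function.update_self _ _ _
        have himg : X.image φ ⊆ (insert i X).image (Function.update φ i z) := by
          intro y hy
          obtain ⟨j, hj, rfl⟩ := mem_image.1 hy
          exact mem_image.2 ⟨j, mem_insert_of_mem hj, hup j hj⟩
        refine ⟨insert i X, Function.update φ i z, ?_, mem_insert_of_mem hr, ?_, ?_, ?_, ?_, ?_⟩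
        · rw [card_insert_of_notMem hiX, hX]
        · intro j hj hjr
          rcases mem_insert.1 hj with rfl | hj
          · exact mem_insert_of_mem hpi
          · exact mem_insert_of_mem (hcl j hj hjr)
        · rw [hup r hr, hφr]
        · intro a ha b hb hab
          rcases mem_insert.1 (mem_coe.1 ha) with h1 | h1
          · rcases mem_insert.1 (mem_coe.1 hb) with h2 | h2
            · rw [h1, h2]
            · rw [h1, hupi, hup b h2] at hab
              exact absurd (mem_image.2 ⟨b, h2, hab.symm⟩) hzX
          · rcases mem_insert.1 (mem_coe.1 hb) with h2 | h2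
            · rw [h2, hupi, hup a h1] at hab
              exact absurd (mem_image.2 ⟨a, h1, hab⟩) hzX
            · rw [hup a h1, hup b h2] at hab
              exact hinj h1 h2 hab
        · intro j hj hjr
          rcases mem_insert.1 hj with h1 | h1
          · rw [h1, hupi, hup _ hpi]; exact hzR
          · rw [hup j h1, hup _ (hcl j h1 hjr)]; exact harc j h1 hjr
        · intro j hj hjr y hy hmy
          rcases mem_insert.1 hj with h1 | h1
          · rw [h1, hupi] at hmy
            rw [h1, hup _ hpi] at hy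
            apply himg
            by_contra h2
            exact absurd (hzmin y (mem_filter.2 ⟨mem_univ _, h2, hy⟩)) (not_le.2 hmy)
          · rw [hup j h1] at hmy
            rw [hup _ (hcl j h1 hjr)] at hy
            exact himg (hgr j h1 hjr y hy hmy)
      · -- failure
        exfalso
        apply hfail
        have hall : ∀ z, Sg R (σ i) (φ (p i)) z → z ∈ X.image φ := by
          intro z hz
          by_contra h
          exact hZ ⟨z, mem_filter.2 ⟨mem_univ _, h, hz⟩⟩
        refine ⟨X.image φ, lt_of_le_of_lt card_image_le (by omega), fun v => ?_⟩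
        -- the claim for placed vertices of high rank
        have hcl2 : ∀ e, ∀ j ∈ X, d j = e → m v < m (φ j) → ∃ y ∈ X.image φ, m y ≤ m v ∧
            ∃ i, i ≠ r ∧ ∀ z, m z ≤ m v → Sg R (σ i) y z → z ∈ X.image φ := by
          intro e
          induction e using Nat.strong_induction_on with
          | _ e ihe =>
            intro j hj hje hlt
            by_cases hjr : j = r
            · rw [hjr, hφr] at hlt
              exact absurd (hv0 v (mem_univ _)) (not_le.2 hlt)
            · by_cases h1 : m (φ (p j)) ≤ m v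
              · refine ⟨φ (p j), mem_image_of_mem _ (hcl j hj hjr), h1, j, hjr, ?_⟩
                intro z hz hR
                exact hgr j hj hjr z hR (lt_of_le_of_lt hz hlt)
              · exact ihe (d (p j)) (hje ▸ hd j hjr) (p j) (hcl j hj hjr) rfl (not_le.1 h1)
        by_cases h1 : m (φ (p i)) ≤ m v
        · exact ⟨φ (p i), mem_image_of_mem _ hpi, h1, i, hir, fun z _ hR => hall z hR⟩
        · exact hcl2 (d (p i)) (p i) hpi rfl (not_le.1 h1)
  have hpos : 1 ≤ Fintype.card W := Fintype.card_pos_iff.2 ⟨r⟩
  obtain ⟨X, φ, hX, hr, hcl, hφr, hinj, harc, hgr⟩ := hmain _ hpos le_rfl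
  have hXu : X = univ := Finset.eq_univ_of_card X hX
  subst hXu
  refine ⟨φ, fun a b hab => hinj (mem_coe.2 (mem_univ a)) (mem_coe.2 (mem_univ b)) hab, ?_⟩
  intro i hi
  exact harc i (mem_univ i) hi

/-- Parents in a finite tree. -/
theorem exists_parents {k : ℕ} (G : SimpleGraph (Fin (k + 1))) (hG : G.IsTree)
    (r : Fin (k + 1)) :
    ∃ (p : Fin (k + 1) → Fin (k + 1)) (d : Fin (k + 1) → ℕ),
      (∀ i, i ≠ r → d (p i) < d i ∧ G.Adj i (p i)) ∧
      (∀ i j, i ≠ r → j ≠ r → s(i, p i) = s(j, p j) → i = j) ∧
      ∀ a b, G.Adj a b → ∃ i, i ≠ r ∧ ((i = a ∧ p i = b) ∨ (i = b ∧ p i = a)) := by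
  have hex : ∀ i, i ≠ r → ∃ j, G.dist j r < G.dist i r ∧ G.Adj i j := by
    intro i hi
    obtain ⟨w, hw⟩ := (hG.1.preconnected i r).exists_walk_length_eq_dist
    cases w with
    | nil => exact absurd rfl hi
    | cons h q =>
      refine ⟨_, ?_, h⟩
      have := SimpleGraph.dist_le q
      rw [SimpleGraph.Walk.length_cons] at hw
      omega
  choose! p hp using hex
  have hinj : ∀ i j, i ≠ r → j ≠ r → s(i, p i) = s(j, p j) → i = j := by
    intro i j hi hj h
    rcases Sym2.eq_iff.1 h with h1 | h1
    · exact h1.1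
    · exfalso
      have e1 := (hp i hi).1
      have e2 := (hp j hj).1
      rw [h1.2] at e1
      rw [← h1.1] at e2
      omega
  refine ⟨p, fun i => G.dist i r, hp, hinj, ?_⟩
  intro a b hab
  have himg : (univ.erase r).image (fun i => s(i, p i)) = G.edgeFinset := by
    apply Finset.eq_of_subset_of_card_le
    · intro e he
      obtain ⟨i, hi, rfl⟩ := mem_image.1 he
      rw [SimpleGraph.mem_edgeFinset]
      exact (hp i (ne_of_mem_erase hi)).2
    · rw [Finset.card_image_of_injOn, card_erase_of_mem (mem_univ r), card_univ]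
      · have := hG.card_edgeFinset
        omega
      · intro i hi j hj h
        exact hinj i j (ne_of_mem_erase (mem_coe.1 hi)) (ne_of_mem_erase (mem_coe.1 hj)) h
  have hmem : s(a, b) ∈ (univ.erase r).image (fun i => s(i, p i)) := by
    rw [himg, SimpleGraph.mem_edgeFinset]; exact hab
  obtain ⟨i, hi, hi'⟩ := mem_image.1 hmem
  refine ⟨i, ne_of_mem_erase hi, ?_⟩
  rcases Sym2.eq_iff.1 hi' with h1 | h1
  · exact Or.inl h1
  · exact Or.inr h1

end Pool.Helper49.FracBurr
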