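import Pool.Agent.Helper49.FracBurr.Basic

set_option autoImplicit false
set_option linter.unusedSectionVars false

namespace Pool.Helper49.FracBurr

open Finset
open scoped Classical

variable {V : Type} [Fintype V]

/-- A finite minimax theorem. -/
theorem minimax {ι : Type} [Fintype ι] (g : ι → V → ℝ) (A : Finset V) (c : ℝ)
    (h : ∀ u : V → ℝ, (∀ v, 0 ≤ u v) → ∃ i, c * ∑ v ∈ A, u v ≤ ∑ v ∈ A, u v * g i v) :
    ∃ μ : ι → ℝ, (∀ i, 0 ≤ μ i) ∧ ∑ i, μ i = 1 ∧ ∀ v ∈ A, c ≤ ∑ i, μ i * g i v := by
  let L : (ι → ℝ) →ₗ[ℝ] (V → ℝ) :=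
    { toFun := fun μ v => ∑ i, μ i * g i v
      map_add' := by
        intro x y; funext v
        simp only [Pi.add_apply, add_mul, Finset.sum_add_distrib]
      map_smul' := by
        intro r x; funext v
        simp only [Pi.smul_apply, smul_eq_mul, RingHom.id_apply, Finset.mul_sum, mul_assoc] }
  let K : Set (V → ℝ) := L '' stdSimplex ℝ ι
  let t : Set (V → ℝ) := {x | ∀ v ∈ A, c ≤ x v}
  by_cases hd : Disjoint K t
  · exfalso
    have hK1 : Convex ℝ K := (convex_stdSimplex ℝ ι).linear_image L
    have hK2 : IsCompact K := (isCompact_stdSimplex ℝ ι).image (LinearMap.continuous_on_pi L)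
    have ht1 : Convex ℝ t := by
      intro x hx y hy a b ha hb hab v hv
      have h1 := mul_le_mul_of_nonneg_left (hx v hv) ha
      have h2 := mul_le_mul_of_nonneg_left (hy v hv) hb
      simp only [Pi.add_apply, Pi.smul_apply, smul_eq_mul]
      have h3 : c = a * c + b * c := by rw [← add_mul, hab, one_mul]
      linarith
    have ht2 : IsClosed t := by
      have : t = ⋂ v ∈ A, {x : V → ℝ | c ≤ x v} := by
        ext x
        simp only [Set.mem_iInter]
        rfl
      rw [this]
      exact isClosed_biInter fun v _ => isClosed_le continuous_const (continuous_apply v)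
    obtain ⟨f, a, b, hf1, hab, hf2⟩ := geometric_hahn_banach_compact_closed hK1 hK2 ht1 ht2 hd
    have hfx : ∀ x : V → ℝ, f x = ∑ v, x v * f (fun j => if v = j then 1 else 0) := by
      intro x
      have := LinearMap.pi_apply_eq_sum_univ (f : (V → ℝ) →ₗ[ℝ] ℝ) x
      simpa [smul_eq_mul] using this
    set e : V → ℝ := fun v => f (fun j => if v = j then 1 else 0) with he
    -- coefficients outside of `A` vanish, and are nonnegative in `A`
    have hlin : ∀ v (s : ℝ), f (fun j => c + s * (if v = j then 1 else 0)) =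
        f (fun _ => c) + s * e v := by
      intro v s
      have : (fun j => c + s * (if v = j then 1 else 0)) =
          (fun _ : V => c) + s • (fun j => if v = j then (1 : ℝ) else 0) := by
        funext j; simp
      rw [this, map_add, map_smul, smul_eq_mul]
    have hnn : ∀ v, 0 ≤ e v := by
      intro v
      by_contra hneg
      push Not at hneg
      -- large positive multiple
      have hb0 : b < f (fun _ => c) := hf2 _ (fun _ _ => le_refl _)
      have h1 : b < f (fun j => c + ((f (fun _ => c) - b) / (-e v)) * (if v = j then 1 else 0)) := by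
        apply hf2
        intro w _
        have h2 : 0 ≤ ((f (fun _ => c) - b) / (-e v)) * (if v = w then 1 else 0) := by
          apply mul_nonneg
          · exact div_nonneg (by linarith) (by linarith)
          · split_ifs <;> norm_num
        show c ≤ c + _
        linarith
      rw [hlin] at h1
      have h3 : (f (fun _ => c) - b) / (-e v) * e v = -(f (fun _ => c) - b) := by
        rw [div_neg, neg_mul, div_mul_cancel₀ _ hneg.ne]
      rw [h3] at h1
      linarith
    have hz : ∀ v, v ∉ A → e v = 0 := by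
      intro v hv
      by_contra hne
      have hpos : 0 < e v := lt_of_le_of_ne (hnn v) (Ne.symm hne)
      have hb0 : b < f (fun _ => c) := hf2 _ (fun _ _ => le_refl _)
      have h1 : b < f (fun j => c + (-((f (fun _ => c) - b) / e v)) * (if v = j then 1 else 0)) := by
        apply hf2
        intro w hw
        have h2 : v ≠ w := fun h => hv (h ▸ hw)
        show c ≤ c + _
        rw [if_neg h2]; simp
      rw [hlin] at h1
      have h3 : -((f (fun _ => c) - b) / e v) * e v = -(f (fun _ => c) - b) := by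
        rw [neg_mul, div_mul_cancel₀ _ hne]
      rw [h3] at h1
      linarith
    obtain ⟨i, hi⟩ := h e hnn
    have h1 : f (fun _ => c) = c * ∑ v ∈ A, e v := by
      rw [hfx, Finset.mul_sum]
      refine (Finset.sum_subset (subset_univ A) fun v _ hv => ?_).symm
      show c * e v = 0
      rw [hz v hv, mul_zero]
    have h2 : f (L (Pi.single i 1)) = ∑ v ∈ A, e v * g i v := by
      rw [hfx]
      have : ∀ v, L (Pi.single i 1) v = g i v := by
        intro v
        show ∑ j, (Pi.single i (1 : ℝ) : ι → ℝ) j * g j v = g i v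
        rw [Finset.sum_eq_single i]
        · simp
        · intro j _ hj; simp [Pi.single_eq_of_ne hj]
        · intro h; exact absurd (mem_univ i) h
      refine ((Finset.sum_subset (subset_univ A) fun v _ hv => ?_).trans ?_).symm
      · rw [hz v hv, zero_mul]
      · exact Finset.sum_congr rfl fun v _ => by rw [this v, mul_comm]
    have h3 : f (L (Pi.single i 1)) < a :=
      hf1 _ ⟨_, single_mem_stdSimplex ℝ i, rfl⟩
    have h4 : b < f (fun _ => c) := hf2 _ (fun _ _ => le_refl _)
    linarith
  · rw [Set.not_disjoint_iff] at hd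
    obtain ⟨x, ⟨μ, hμ, rfl⟩, hx⟩ := hd
    exact ⟨μ, hμ.1, hμ.2, hx⟩

/-- The load of a vertex. -/
noncomputable def load (μ : Finset V → ℝ) (v : V) : ℝ := ∑ S, if v ∈ S then μ S else 0

theorem load_nonneg {μ : Finset V → ℝ} (h : ∀ S, 0 ≤ μ S) (v : V) : 0 ≤ load μ v :=
  Finset.sum_nonneg fun S _ => by split_ifs <;> [exact h S; exact le_refl _]

theorem sum_load (μ : Finset V → ℝ) (U : Finset V) :
    ∑ v ∈ U, load μ v = ∑ S, μ S * ((S ∩ U).card : ℝ) := by
  unfold load
  rw [Finset.sum_comm]
  refine Finset.sum_congr rfl fun S _ => ?_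
  rw [← Finset.sum_filter, Finset.sum_const, nsmul_eq_mul, mul_comm]
  congr 3
  ext v; simp [and_comm]

/-- The game lemma: a distribution on stable subsets of `A` dominating every vertex of `A`. -/
theorem exists_game (R : V → V → Prop) (A : Finset V) :
    ∃ μ : Finset V → ℝ, (∀ S, 0 ≤ μ S) ∧ (∀ S, μ S ≠ 0 → S ⊆ A ∧ Stab R S) ∧ ∑ S, μ S = 1 ∧
      ∀ v ∈ A, 1 / 2 ≤ ∑ S, μ S * pay R S v := by
  obtain ⟨μ, h1, h2, h3⟩ := minimax (ι := {S : Finset V // S ⊆ A ∧ Stab R S})
    (fun S v => pay R S.1 v) A (1 / 2) (by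
      intro u hu
      obtain ⟨S, hS, hst, h⟩ := exists_greedy R u hu A
      exact ⟨⟨S, hS, hst⟩, by linarith⟩)
  have key : ∀ F : Finset V → ℝ, ∑ S, (if h : S ⊆ A ∧ Stab R S then μ ⟨S, h⟩ else 0) * F S =
      ∑ S : {S : Finset V // S ⊆ A ∧ Stab R S}, μ S * F S.1 := by
    intro F
    have h4 : ∑ S ∈ univ.filter (fun S => S ⊆ A ∧ Stab R S),
        (if h : S ⊆ A ∧ Stab R S then μ ⟨S, h⟩ else 0) * F S =
        ∑ S, (if h : S ⊆ A ∧ Stab R S then μ ⟨S, h⟩ else 0) * F S := by
      refine Finset.sum_subset (filter_subset _ _) fun S _ hS => ?_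
      rw [dif_neg (fun h => hS (mem_filter.2 ⟨mem_univ _, h⟩)), zero_mul]
    rw [← h4, Finset.sum_subtype (univ.filter (fun S => S ⊆ A ∧ Stab R S))
      (p := fun S => S ⊆ A ∧ Stab R S) (fun x => by simp)]
    refine Finset.sum_congr rfl fun S _ => ?_
    rw [dif_pos S.2]
  refine ⟨fun S => if h : S ⊆ A ∧ Stab R S then μ ⟨S, h⟩ else 0, ?_, ?_, ?_, ?_⟩
  · intro S
    show 0 ≤ (if h : S ⊆ A ∧ Stab R S then μ ⟨S, h⟩ else 0)
    split_ifs with h
    · exact h1 _
    · exact le_refl _
  · intro S hS
    by_contra hcon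
    exact hS (dif_neg hcon)
  · have := key (fun _ => 1)
    simp only [mul_one] at this
    rw [this, h2]
  · intro v hv
    rw [key (fun S => pay R S v)]
    exact h3 v hv

end Pool.Helper49.FracBurr
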