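import Pool.Agent.Helper49.FracBurr.Process

/-!
# The load process with weighted traps
-/

set_option autoImplicit false
set_option linter.unusedSectionVars false

namespace Pool.Helper49.FracBurr

open Finset
open scoped Classical

variable {V : Type} [Fintype V]

/-- The load process, with a weight function instead of a trapped set. -/
theorem processW (R : V → V → Prop) (Trap : Finset V → V → (V → ℝ) → Prop) (c : ℝ)
    (H : ∀ A : Finset V, A.Nonempty → ∃ μ : Finset V → ℝ, (∀ S, 0 ≤ μ S) ∧
      (∀ S, μ S ≠ 0 → S ⊆ A ∧ Stab R S) ∧ ∑ S, μ S = 1 ∧ (∃ v ∈ A, 0 < load μ v) ∧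
      ∀ y ∈ A, ∀ a : V → ℝ, (∀ v, 0 ≤ a v) → Trap A y a →
        c + load μ y / 4 ≤ ∑ v, a v * load μ v) :
    ∀ A : Finset V, A.Nonempty → ∀ w : V → ℝ, (∀ v ∈ A, 0 < w v) →
      ∃ (m : V → ℕ) (l : Finset V → ℝ), (∀ S, 0 ≤ l S) ∧ (∀ S, l S ≠ 0 → S ⊆ A ∧ Stab R S) ∧
        (∀ v ∈ A, load l v = w v) ∧
        ∀ a : V → ℝ, (∀ v, 0 ≤ a v) → (∀ v ∈ A, ∃ y ∈ A, m y ≤ m v ∧
            Trap (A.filter (fun z => m z ≤ m v)) y a) →
          c * ∑ S, l S < ∑ v ∈ A, a v * w v := by
  intro A
  induction A using Finset.strongInduction with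
  | H A ih =>
    intro hA w hw
    obtain ⟨μ, h0, hsupp, hone, hpos, htrap⟩ := H A hA
    have hsA : ∀ S, μ S ≠ 0 → S ⊆ A := fun S hS => (hsupp S hS).1
    -- the duration of the first stage
    have hP : (A.filter (fun v => 0 < load μ v)).Nonempty := by
      obtain ⟨v, hv, hv'⟩ := hpos
      exact ⟨v, mem_filter.2 ⟨hv, hv'⟩⟩
    obtain ⟨v0, hv0, hmin⟩ := Finset.exists_min_image _ (fun v => w v / load μ v) hP
    obtain ⟨hv0A, hv0p⟩ := mem_filter.1 hv0
    set δ := w v0 / load μ v0 with hδ
    have hδpos : 0 < δ := div_pos (hw v0 hv0A) hv0p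
    have hle : ∀ v ∈ A, δ * load μ v ≤ w v := by
      intro v hv
      rcases (load_nonneg h0 v).eq_or_lt with h1 | h1
      · rw [← h1, mul_zero]; exact (hw v hv).le
      · exact (le_div_iff₀ h1).1 (hmin v (mem_filter.2 ⟨hv, h1⟩))
    have hv0e : δ * load μ v0 = w v0 := by rw [hδ, div_mul_cancel₀ _ hv0p.ne']
    set A' := A.filter (fun v => δ * load μ v < w v) with hA'
    have hsub : A' ⊂ A := by
      refine (Finset.ssubset_iff_of_subset (filter_subset _ _)).2 ⟨v0, hv0A, ?_⟩
      intro h
      exact absurd hv0e (mem_filter.1 h).2.ne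
    have hout : ∀ v ∈ A, v ∉ A' → w v = δ * load μ v := by
      intro v hv hv'
      refine le_antisymm ?_ (hle v hv)
      by_contra h
      exact hv' (mem_filter.2 ⟨hv, not_le.1 h⟩)
    have hUA : ∀ a : V → ℝ, ∑ v, a v * load μ v = ∑ v ∈ A, a v * load μ v := by
      intro a
      refine (Finset.sum_subset (subset_univ A) fun v _ hv' => ?_).symm
      rw [load_eq_zero hsA hv', mul_zero]
    rcases A'.eq_empty_or_nonempty with hemp | hne
    · -- the last stage
      refine ⟨fun _ => 0, fun S => δ * μ S, fun S => mul_nonneg hδpos.le (h0 S), ?_, ?_, ?_⟩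
      · intro S hS
        exact hsupp S (fun h => hS (by show δ * μ S = 0; rw [h, mul_zero]))
      · intro v hv
        have h1 := load_add μ μ δ 0 v
        simp only [zero_mul, add_zero] at h1
        rw [h1, hout v hv (by rw [hemp]; exact notMem_empty v)]
      · intro a ha hU
        obtain ⟨v, hv⟩ := hA
        obtain ⟨y, hyA, -, hT⟩ := hU v hv
        have e1 : A.filter (fun _ => (0 : ℕ) ≤ 0) = A := by
          ext x; simp
        rw [e1] at hT
        have h1 := htrap y hyA a ha hT
        have h2 : 0 < load μ y := by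
          have h3 := hw y hyA
          rw [hout y hyA (by rw [hemp]; exact notMem_empty y)] at h3
          exact (mul_pos_iff_of_pos_left hδpos).1 h3
        rw [hUA a] at h1
        have h4 : ∑ v ∈ A, a v * w v = δ * ∑ v ∈ A, a v * load μ v := by
          rw [Finset.mul_sum]
          refine Finset.sum_congr rfl fun x hx => ?_
          rw [hout x hx (by rw [hemp]; exact notMem_empty x)]; ring
        have h5 : ∑ S, δ * μ S = δ := by rw [← Finset.mul_sum, hone, mul_one]
        rw [h5, h4, mul_comm c δ]
        exact mul_lt_mul_of_pos_left (by linarith) hδpos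
    · -- an earlier stage
      obtain ⟨m', l', hl0, hlsupp, hlload, hlU⟩ := ih A' hsub hne
        (fun v => w v - δ * load μ v) (fun v hv => by
          have := (mem_filter.1 hv).2
          show 0 < w v - δ * load μ v
          linarith)
      have hlsA : ∀ S, l' S ≠ 0 → S ⊆ A' := fun S hS => (hlsupp S hS).1
      set N := ∑ v, m' v + 1 with hN
      have hN' : ∀ v, m' v < N := fun v =>
        Nat.lt_succ_of_le (Finset.single_le_sum (f := m') (fun _ _ => Nat.zero_le _) (mem_univ v))
      set m : V → ℕ := fun v => if v ∈ A' then m' v else N with hm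
      have hmi : ∀ v, v ∈ A' → m v = m' v := fun v hv => if_pos hv
      have hmo : ∀ v, v ∉ A' → m v = N := fun v hv => if_neg hv
      refine ⟨m, fun S => 1 * l' S + δ * μ S, ?_, ?_, ?_, ?_⟩
      · intro S
        have := mul_nonneg hδpos.le (h0 S)
        have := hl0 S
        show 0 ≤ 1 * l' S + δ * μ S
        linarith
      · intro S hS
        by_cases h1 : l' S = 0
        · refine hsupp S (fun h => hS ?_)
          show 1 * l' S + δ * μ S = 0
          rw [h1, h]; ring
        · exact ⟨(hlsA S h1).trans hsub.subset, (hlsupp S h1).2⟩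
      · intro v hv
        rw [load_add]
        by_cases h1 : v ∈ A'
        · rw [hlload v h1]; ring
        · rw [load_eq_zero hlsA h1, hout v hv h1]; ring
      · intro a ha hU
        have h1 : c * ∑ S, l' S < ∑ v ∈ A', a v * (w v - δ * load μ v) := by
          apply hlU a ha
          intro v hv
          obtain ⟨y, hyA, hmy, hT⟩ := hU v (hsub.subset hv)
          have hyA' : y ∈ A' := by
            by_contra h
            rw [hmo y h, hmi v hv] at hmy
            exact absurd (hN' v) (not_lt.2 hmy)
          refine ⟨y, hyA', ?_, ?_⟩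
          · rw [← hmi y hyA', ← hmi v hv]; exact hmy
          · have e1 : A.filter (fun z => m z ≤ m v) = A'.filter (fun z => m' z ≤ m' v) := by
              ext z
              simp only [mem_filter]
              constructor
              · rintro ⟨hz, hz'⟩
                have hzA' : z ∈ A' := by
                  by_contra h
                  rw [hmo z h, hmi v hv] at hz'
                  exact absurd (hN' v) (not_lt.2 hz')
                refine ⟨hzA', ?_⟩
                rw [← hmi z hzA', ← hmi v hv]; exact hz'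
              · rintro ⟨hz, hz'⟩
                refine ⟨hsub.subset hz, ?_⟩
                rw [hmi z hz, hmi v hv]; exact hz'
            rw [← e1]; exact hT
        have h2 : c * δ ≤ δ * ∑ v ∈ A, a v * load μ v := by
          have hv0' : v0 ∉ A' := fun h => absurd hv0e (mem_filter.1 h).2.ne
          obtain ⟨y, hyA, -, hT⟩ := hU v0 hv0A
          have e1 : A.filter (fun z => m z ≤ m v0) = A := by
            rw [hmo v0 hv0']
            refine Finset.filter_true_of_mem fun z _ => ?_
            by_cases h : z ∈ A'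
            · rw [hmi z h]; exact (hN' z).le
            · rw [hmo z h]
          rw [e1] at hT
          have h3 := htrap y hyA a ha hT
          have h4 := load_nonneg h0 y
          rw [hUA a] at h3
          rw [mul_comm c δ]
          exact mul_le_mul_of_nonneg_left (by linarith) hδpos.le
        have h3 : ∑ v ∈ A', a v * (w v - δ * load μ v) =
            ∑ v ∈ A, a v * (w v - δ * load μ v) := by
          refine Finset.sum_subset hsub.subset fun x hx hx' => ?_
          have := hout x hx hx'
          rw [this]; ring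
        have h4 : ∑ S, (1 * l' S + δ * μ S) = ∑ S, l' S + δ := by
          rw [Finset.sum_add_distrib, ← Finset.mul_sum, ← Finset.mul_sum, hone]; ring
        have h5 : ∑ v ∈ A, a v * (w v - δ * load μ v) =
            ∑ v ∈ A, a v * w v - δ * ∑ v ∈ A, a v * load μ v := by
          rw [Finset.mul_sum, ← Finset.sum_sub_distrib]
          exact Finset.sum_congr rfl fun _ _ => by ring
        rw [h3, h5] at h1
        rw [h4, mul_add]
        linarith

/-- The trap with two weights. -/
def TrapW (R : V → V → Prop) (α β : ℝ) (A : Finset V) (y : V) (a : V → ℝ) : Prop :=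
  (∃ U : Finset V, y ∈ U ∧ TrapO R A y U ∧ ∀ v ∈ U, α ≤ a v) ∨
  (∃ U : Finset V, y ∈ U ∧ TrapO (fun a b => R b a) A y U ∧ ∀ v ∈ U, β ≤ a v)

theorem hyp_mix (R : V → V → Prop) (t : ℝ) (ht0 : 0 < t) (ht1 : t < 1) (A : Finset V)
    (hA : A.Nonempty) :
    ∃ μ : Finset V → ℝ, (∀ S, 0 ≤ μ S) ∧
      (∀ S, μ S ≠ 0 → S ⊆ A ∧ Stab R S) ∧ ∑ S, μ S = 1 ∧ (∃ v ∈ A, 0 < load μ v) ∧
      ∀ y ∈ A, ∀ a : V → ℝ, (∀ v, 0 ≤ a v) → TrapW R (2 / t) (2 / (1 - t)) A y a →
        1 + load μ y / 4 ≤ ∑ v, a v * load μ v := by
  have hs0 : 0 < 1 - t := by linarith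
  obtain ⟨μ, h0, hs, h1, hg⟩ := exists_game R A
  obtain ⟨ν, k0, ks, k1, kg⟩ := exists_game (fun a b => R b a) A
  have ks' : ∀ S, ν S ≠ 0 → S ⊆ A ∧ Stab (fun a b => R b a) S := ks
  have hload : ∀ v, load (fun S => t * μ S + (1 - t) * ν S) v =
      t * load μ v + (1 - t) * load ν v := fun v => load_add μ ν _ _ v
  refine ⟨fun S => t * μ S + (1 - t) * ν S, ?_, ?_, ?_, ?_, ?_⟩
  · intro S
    have := mul_nonneg ht0.le (h0 S)
    have := mul_nonneg hs0.le (k0 S)
    show 0 ≤ t * μ S + (1 - t) * ν S
    linarith
  · intro S hS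
    by_cases h : μ S = 0
    · have h' : ν S ≠ 0 := by
        intro h'
        apply hS
        show t * μ S + (1 - t) * ν S = 0
        rw [h, h']; ring
      exact ⟨(ks' S h').1, stab_swap (ks' S h').2⟩
    · exact hs S h
  · rw [Finset.sum_add_distrib, ← Finset.mul_sum, ← Finset.mul_sum, h1, k1]; ring
  · obtain ⟨v, hv⟩ := hA
    have h2 := hg v hv
    obtain ⟨S, -, hS⟩ : ∃ S ∈ (univ : Finset (Finset V)), 0 < μ S * pay R S v := by
      by_contra hcon
      push Not at hcon
      have := Finset.sum_nonpos hcon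
      linarith
    have hS0 : μ S ≠ 0 := fun h => by rw [h, zero_mul] at hS; exact lt_irrefl _ hS
    have hSn : ∃ x, x ∈ S := by
      by_contra hcon
      push Not at hcon
      have : pay R S v = 0 := by
        unfold pay
        rw [if_neg (fun ⟨w, hw, _⟩ => hcon w hw), if_neg (hcon v)]
      rw [this, mul_zero] at hS
      exact lt_irrefl _ hS
    obtain ⟨x, hx⟩ := hSn
    obtain ⟨hxA, hxp⟩ := exists_load_pos h0 (fun S hS => (hs S hS).1) hS0 hx
    refine ⟨x, hxA, ?_⟩
    rw [hload]
    have h3 := mul_nonneg hs0.le (load_nonneg k0 x)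
    have h4 := mul_pos ht0 hxp
    linarith
  · intro y hy a ha hT
    set M : Finset V → ℝ := fun S => t * μ S + (1 - t) * ν S with hM
    have hM0 : ∀ S, 0 ≤ M S := by
      intro S
      have := mul_nonneg ht0.le (h0 S)
      have := mul_nonneg hs0.le (k0 S)
      show 0 ≤ t * μ S + (1 - t) * ν S
      linarith
    have p1 := load_nonneg h0 y
    have p2 := load_nonneg k0 y
    have q1 := mul_nonneg ht0.le p1
    have q2 := mul_nonneg hs0.le p2
    have hlow : ∀ (U : Finset V) (α : ℝ), 0 ≤ α → (∀ v ∈ U, α ≤ a v) →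
        α * ∑ v ∈ U, load M v ≤ ∑ v, a v * load M v := by
      intro U α hα hU
      rw [Finset.mul_sum]
      calc ∑ v ∈ U, α * load M v ≤ ∑ v ∈ U, a v * load M v :=
            Finset.sum_le_sum fun v hv => mul_le_mul_of_nonneg_right (hU v hv) (load_nonneg hM0 v)
        _ ≤ ∑ v, a v * load M v :=
            Finset.sum_le_sum_of_subset_of_nonneg (subset_univ U)
              fun v _ _ => mul_nonneg (ha v) (load_nonneg hM0 v)
    have e1 : ∀ U : Finset V, ∑ v ∈ U, load M v =
        t * ∑ v ∈ U, load μ v + (1 - t) * ∑ v ∈ U, load ν v := by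
      intro U
      rw [Finset.mul_sum, Finset.mul_sum, ← Finset.sum_add_distrib]
      exact Finset.sum_congr rfl fun v _ => hload v
    have e2 : load M y = t * load μ y + (1 - t) * load ν y := hload y
    have hMy : 0 ≤ load M y := load_nonneg hM0 y
    rcases hT with ⟨U, hyU, hT, hU⟩ | ⟨U, hyU, hT, hU⟩
    · have p3 : load ν y ≤ ∑ v ∈ U, load ν v :=
        Finset.single_le_sum (f := load ν) (fun v _ => load_nonneg k0 v) hyU
      have h2 := load_ge h0 hs (hg y hy) hyU hT
      have h3 := hlow U (2 / t) (by positivity) hU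
      have h4 : t / 2 + load M y / 2 ≤ ∑ v ∈ U, load M v := by
        rw [e1, e2]
        have := mul_le_mul_of_nonneg_left h2 ht0.le
        have := mul_le_mul_of_nonneg_left p3 hs0.le
        nlinarith
      have h5 : 2 / t * (t / 2 + load M y / 2) ≤ 2 / t * ∑ v ∈ U, load M v :=
        mul_le_mul_of_nonneg_left h4 (by positivity)
      have h6 : 2 / t * (t / 2 + load M y / 2) = 1 + load M y / t := by
        field_simp
      have h7 : load M y ≤ load M y / t := by
        rw [le_div_iff₀ ht0]
        nlinarith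
      linarith
    · have p3 : load μ y ≤ ∑ v ∈ U, load μ v :=
        Finset.single_le_sum (f := load μ) (fun v _ => load_nonneg h0 v) hyU
      have h2 := load_ge k0 ks' (kg y hy) hyU hT
      have h3 := hlow U (2 / (1 - t)) (by positivity) hU
      have h4 : (1 - t) / 2 + load M y / 2 ≤ ∑ v ∈ U, load M v := by
        rw [e1, e2]
        have := mul_le_mul_of_nonneg_left h2 hs0.le
        have := mul_le_mul_of_nonneg_left p3 ht0.le
        nlinarith
      have h5 : 2 / (1 - t) * ((1 - t) / 2 + load M y / 2) ≤ 2 / (1 - t) * ∑ v ∈ U, load M v :=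
        mul_le_mul_of_nonneg_left h4 (by positivity)
      have h6 : 2 / (1 - t) * ((1 - t) / 2 + load M y / 2) = 1 + load M y / (1 - t) := by
        field_simp
      have h7 : load M y ≤ load M y / (1 - t) := by
        rw [le_div_iff₀ hs0]
        nlinarith
      linarith

end Pool.Helper49.FracBurr
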