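import Pool.Agent.Helper49.FracBurr.Main
import Pool.Agent.Helper49.FracBurr.ProcW

/-!
# Greedy embedding in a prescribed order
-/

set_option autoImplicit false
set_option linter.unusedSectionVars false

namespace Pool.Helper49.FracBurr

open Finset
open scoped Classical

variable {V : Type} [Fintype V]

/-- Greedy embedding along an injective order `d`: either an embedding or a trap for every
level, consisting of vertices placed before. -/
theorem greedyOrd {W : Type} [Fintype W] (r : W) (p : W → W) (d : W → ℕ) (σ : W → Bool)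
    (hdi : Function.Injective d) (hd : ∀ i, i ≠ r → d (p i) < d i)
    (R : V → V → Prop) (m : V → ℕ) (hV : Nonempty V) :
    (∃ φ : W → V, Function.Injective φ ∧ ∀ i, i ≠ r → Sg R (σ i) (φ (p i)) (φ i)) ∨
    (∃ (φ : W → V) (i0 : W), ∀ v, ∃ i, i ≠ r ∧ d i ≤ d i0 ∧ m (φ (p i)) ≤ m v ∧
      ∀ z, m z ≤ m v → Sg R (σ i) (φ (p i)) z → ∃ j, d j < d i ∧ φ j = z) := by
  by_cases hfail : ∃ (φ : W → V) (i0 : W), ∀ v, ∃ i, i ≠ r ∧ d i ≤ d i0 ∧ m (φ (p i)) ≤ m v ∧
      ∀ z, m z ≤ m v → Sg R (σ i) (φ (p i)) z → ∃ j, d j < d i ∧ φ j = z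
  · exact Or.inr hfail
  left
  obtain ⟨v0, -, hv0⟩ := Finset.exists_min_image (univ : Finset V) m
    ⟨hV.some, mem_univ _⟩
  -- `r` has the smallest value
  have hrmin : ∀ i, i ≠ r → d r < d i := by
    have : ∀ e i, d i = e → i ≠ r → d r < d i := by
      intro e
      induction e using Nat.strong_induction_on with
      | _ e ih =>
        intro i hie hi
        by_cases h : p i = r
        · rw [← h]; exact hd i hi
        · exact (ih (d (p i)) (hie ▸ hd i hi) (p i) rfl h).trans (hd i hi)
    exact fun i hi => this (d i) i rfl hi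
  have hmain : ∀ n, 1 ≤ n → n ≤ Fintype.card W → ∃ (X : Finset W) (φ : W → V), X.card = n ∧
      r ∈ X ∧ (∀ i ∈ X, ∀ j, d j < d i → j ∈ X) ∧ φ r = v0 ∧ Set.InjOn φ X ∧
      (∀ i ∈ X, i ≠ r → Sg R (σ i) (φ (p i)) (φ i)) ∧
      (∀ i ∈ X, i ≠ r → ∀ z, Sg R (σ i) (φ (p i)) z → m z < m (φ i) →
        ∃ j, d j < d i ∧ φ j = z) := by
    intro n hn
    induction n, hn using Nat.le_induction with
    | base =>
      intro _
      refine ⟨{r}, fun _ => v0, card_singleton r, mem_singleton_self r, ?_, rfl, ?_, ?_, ?_⟩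
      · intro i hi j hj
        rw [mem_singleton.1 hi] at hj
        by_contra h
        have := hrmin j (fun h' => h (by rw [h']; exact mem_singleton_self r))
        omega
      · intro a ha b hb _
        rw [mem_singleton.1 (mem_coe.1 ha), mem_singleton.1 (mem_coe.1 hb)]
      · intro i hi hir; exact absurd (mem_singleton.1 hi) hir
      · intro i hi hir; exact absurd (mem_singleton.1 hi) hir
    | succ n hn ih =>
      intro hcard
      obtain ⟨X, φ, hX, hr, hcl, hφr, hinj, harc, hgr⟩ := ih (by omega)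
      -- the next vertex
      have hne : (univ \ X).Nonempty := by
        rw [← Finset.card_pos, Finset.card_sdiff_of_subset (subset_univ X), card_univ]
        omega
      obtain ⟨i, hi, himin⟩ := Finset.exists_min_image (univ \ X) d hne
      have hiX : i ∉ X := (mem_sdiff.1 hi).2
      have hir : i ≠ r := fun h => hiX (h ▸ hr)
      have hlow : ∀ j, d j < d i → j ∈ X := by
        intro j hj
        by_contra h
        have := himin j (mem_sdiff.2 ⟨mem_univ _, h⟩)
        omega
      have hpi : p i ∈ X := hlow _ (hd i hir)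
      have hXlt : ∀ j ∈ X, d j < d i := by
        intro j hj
        by_contra h
        rcases (not_lt.1 h).lt_or_eq with h1 | h1
        · exact hiX (hcl j hj i h1)
        · exact hiX (hdi h1 ▸ hj)
      by_cases hZ : (univ.filter (fun z => z ∉ X.image φ ∧ Sg R (σ i) (φ (p i)) z)).Nonempty
      · obtain ⟨z, hz, hzmin⟩ := Finset.exists_min_image _ m hZ
        obtain ⟨-, hzX, hzR⟩ := mem_filter.1 hz
        have hup : ∀ j ∈ X, Function.update φ i z j = φ j := fun j hj =>
          Function.update_of_ne (fun h => hiX (by rw [← h]; exact hj)) _ _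
        have hupi : Function.update φ i z i = z := Function.update_self _ _ _
        refine ⟨insert i X, Function.update φ i z, ?_, mem_insert_of_mem hr, ?_, ?_, ?_, ?_, ?_⟩
        · rw [card_insert_of_notMem hiX, hX]
        · intro j hj j' hj'
          rcases mem_insert.1 hj with rfl | hj
          · exact mem_insert_of_mem (hlow j' hj')
          · exact mem_insert_of_mem (hcl j hj j' hj')
        · rw [hup r hr, hφr]
        · intro a ha b hb hab
          rcases mem_insert.1 (mem_coe.1 ha) with h1 | h1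
          · rcases mem_insert.1 (mem_coe.1 hb) with h2 | h2
            · rw [h1, h2]
            · rw [h1, hupi, hup b h2] at hab
              exact absurd (mem_image.2 ⟨b, h2, hab.symm⟩) hzX
          · rcases mem_insert.1 (mem_coe.1 hb) with h2 | h2
            · rw [h2, hupi, hup a h1] at hab
              exact absurd (mem_image.2 ⟨a, h1, hab⟩) hzX
            · rw [hup a h1, hup b h2] at hab
              exact hinj h1 h2 hab
        · intro j hj hjr
          rcases mem_insert.1 hj with h1 | h1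
          · rw [h1, hupi, hup _ hpi]; exact hzR
          · rw [hup j h1, hup _ (hcl j h1 _ (hd j hjr))]; exact harc j h1 hjr
        · intro j hj hjr y hy hmy
          rcases mem_insert.1 hj with h1 | h1
          · rw [h1, hupi] at hmy
            rw [h1, hup _ hpi] at hy
            have h3 : y ∈ X.image φ := by
              by_contra h2
              exact absurd (hzmin y (mem_filter.2 ⟨mem_univ _, h2, hy⟩)) (not_le.2 hmy)
            obtain ⟨j', hj', rfl⟩ := mem_image.1 h3
            exact ⟨j', by rw [h1]; exact hXlt j' hj', hup j' hj'⟩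
          · rw [hup j h1] at hmy
            rw [hup _ (hcl j h1 _ (hd j hjr))] at hy
            obtain ⟨j', hj', e⟩ := hgr j h1 hjr y hy hmy
            exact ⟨j', hj', by rw [hup j' (hcl j h1 j' hj')]; exact e⟩
      · -- failure
        exfalso
        apply hfail
        have hall : ∀ z, Sg R (σ i) (φ (p i)) z → z ∈ X.image φ := by
          intro z hz
          by_contra h
          exact hZ ⟨z, mem_filter.2 ⟨mem_univ _, h, hz⟩⟩
        refine ⟨φ, i, fun v => ?_⟩
        -- the claim for placed vertices of high rank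
        have hcl2 : ∀ e, ∀ j ∈ X, d j = e → m v < m (φ j) →
            ∃ i', i' ≠ r ∧ d i' ≤ d i ∧ m (φ (p i')) ≤ m v ∧
            ∀ z, m z ≤ m v → Sg R (σ i') (φ (p i')) z → ∃ j, d j < d i' ∧ φ j = z := by
          intro e
          induction e using Nat.strong_induction_on with
          | _ e ihe =>
            intro j hj hje hlt
            by_cases hjr : j = r
            · rw [hjr, hφr] at hlt
              exact absurd (hv0 v (mem_univ _)) (not_le.2 hlt)
            · by_cases h1 : m (φ (p j)) ≤ m v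
              · refine ⟨j, hjr, (hXlt j hj).le, h1, ?_⟩
                intro z hz hR
                exact hgr j hj hjr z hR (lt_of_le_of_lt hz hlt)
              · exact ihe (d (p j)) (hje ▸ hd j hjr) (p j) (hcl j hj _ (hd j hjr)) rfl
                  (not_le.1 h1)
        by_cases h1 : m (φ (p i)) ≤ m v
        · refine ⟨i, hir, le_rfl, h1, fun z _ hR => ?_⟩
          obtain ⟨j, hj, e⟩ := mem_image.1 (hall z hR)
          exact ⟨j, hXlt j hj, e⟩
        · exact hcl2 (d (p i)) (p i) hpi rfl (not_le.1 h1)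
  have hpos : 1 ≤ Fintype.card W := Fintype.card_pos_iff.2 ⟨r⟩
  obtain ⟨X, φ, hX, hr, hcl, hφr, hinj, harc, hgr⟩ := hmain _ hpos le_rfl
  have hXu : X = univ := Finset.eq_univ_of_card X hX
  subst hXu
  refine ⟨φ, fun a b hab => hinj (mem_coe.2 (mem_univ a)) (mem_coe.2 (mem_univ b)) hab, ?_⟩
  intro i hi
  exact harc i (mem_univ i) hi

/-- Parents in a finite tree, a connected set of vertices first. -/
theorem exists_parentsS {k : ℕ} (G : SimpleGraph (Fin (k + 1))) (hG : G.IsTree)
    (S : Finset (Fin (k + 1))) (hS : (G.induce (S : Set (Fin (k + 1)))).Connected) :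
    ∃ (r : Fin (k + 1)) (p : Fin (k + 1) → Fin (k + 1)) (d : Fin (k + 1) → ℕ),
      r ∈ S ∧ Function.Injective d ∧ (∀ i, i ≠ r → d (p i) < d i) ∧
      (∀ i, i ≠ r → G.Adj i (p i)) ∧ (∀ i ∈ S, i ≠ r → p i ∈ S) ∧
      (∀ i ∈ S, ∀ j, j ∉ S → d i < d j) := by
  obtain ⟨⟨r, hr⟩⟩ := hS.nonempty
  have hrS : r ∈ S := mem_coe.1 hr
  have hexS : ∀ i : Fin (k + 1), ∀ hi : i ∈ S, i ≠ r → ∃ j, ∃ hj : j ∈ S,
      (G.induce (S : Set (Fin (k + 1)))).dist ⟨j, mem_coe.2 hj⟩ ⟨r, hr⟩ <
        (G.induce (S : Set (Fin (k + 1)))).dist ⟨i, mem_coe.2 hi⟩ ⟨r, hr⟩ ∧ G.Adj i j := by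
    intro i hi hir
    obtain ⟨w, hw⟩ := (hS.preconnected ⟨i, mem_coe.2 hi⟩ ⟨r, hr⟩).exists_walk_length_eq_dist
    cases w with
    | nil => exact absurd rfl hir
    | @cons _ y _ h q =>
      refine ⟨y.1, mem_coe.1 y.2, ?_, h⟩
      have := SimpleGraph.dist_le q
      rw [SimpleGraph.Walk.length_cons] at hw
      have e : (⟨y.1, mem_coe.2 (mem_coe.1 y.2)⟩ : (S : Set (Fin (k + 1)))) = y := rfl
      rw [e]
      omega
  have hexO : ∀ i, i ∉ S → ∃ j, G.dist j r < G.dist i r ∧ G.Adj i j := by
    intro i hi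
    obtain ⟨w, hw⟩ := (hG.1.preconnected i r).exists_walk_length_eq_dist
    cases w with
    | nil => exact absurd hrS hi
    | cons h q =>
      refine ⟨_, ?_, h⟩
      have := SimpleGraph.dist_le q
      rw [SimpleGraph.Walk.length_cons] at hw
      omega
  -- the potential
  set e : Fin (k + 1) → ℕ := fun i =>
    if hi : i ∈ S then (G.induce (S : Set (Fin (k + 1)))).dist ⟨i, mem_coe.2 hi⟩ ⟨r, hr⟩
    else (∑ x : (S : Set (Fin (k + 1))), (G.induce (S : Set (Fin (k + 1)))).dist x ⟨r, hr⟩) + 1 +
      G.dist i r with he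
  have heS : ∀ i (hi : i ∈ S), e i =
      (G.induce (S : Set (Fin (k + 1)))).dist ⟨i, mem_coe.2 hi⟩ ⟨r, hr⟩ := fun i hi => dif_pos hi
  have heO : ∀ i, i ∉ S → e i =
      (∑ x : (S : Set (Fin (k + 1))), (G.induce (S : Set (Fin (k + 1)))).dist x ⟨r, hr⟩) + 1 +
      G.dist i r := fun i hi => dif_neg hi
  have hSO : ∀ i ∈ S, ∀ j, j ∉ S → e i < e j := by
    intro i hi j hj
    rw [heS i hi, heO j hj]
    have := Finset.single_le_sum
      (f := fun x : (S : Set (Fin (k + 1))) => (G.induce (S : Set (Fin (k + 1)))).dist x ⟨r, hr⟩)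
      (fun _ _ => Nat.zero_le _) (mem_univ (⟨i, mem_coe.2 hi⟩ : (S : Set (Fin (k + 1)))))
    omega
  have hex : ∀ i, i ≠ r → ∃ j, e j < e i ∧ G.Adj i j ∧ (i ∈ S → j ∈ S) := by
    intro i hi
    by_cases hiS : i ∈ S
    · obtain ⟨j, hj, h1, h2⟩ := hexS i hiS hi
      exact ⟨j, by rw [heS i hiS, heS j hj]; exact h1, h2, fun _ => hj⟩
    · obtain ⟨j, h1, h2⟩ := hexO i hiS
      refine ⟨j, ?_, h2, fun h => absurd h hiS⟩
      by_cases hj : j ∈ S
      · exact hSO j hj i hiS
      · rw [heO i hiS, heO j hj]; omega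
  choose! p hp using hex
  have hlex : ∀ i j, e i < e j → e i * (k + 1) + i.val < e j * (k + 1) + j.val := by
    intro i j hij
    have h1 := i.isLt
    nlinarith
  refine ⟨r, p, fun i => e i * (k + 1) + i.val, hrS, ?_, fun i hi => hlex _ _ (hp i hi).1,
    fun i hi => (hp i hi).2.1, fun i hi hir => (hp i hir).2.2 hi,
    fun i hi j hj => hlex _ _ (hSO i hi j hj)⟩
  intro i j hij
  have h1 := congrArg (fun n => n % (k + 1)) hij
  simp only [Nat.mul_add_mod_of_lt i.isLt, Nat.mul_add_mod_of_lt j.isLt] at h1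
  exact Fin.ext h1

/-- Every edge is a parent edge. -/
theorem edges_of_inj {k : ℕ} (G : SimpleGraph (Fin (k + 1))) (hG : G.IsTree)
    (r : Fin (k + 1)) (h : Fin (k + 1) → Fin (k + 1)) (hadj : ∀ i, i ≠ r → G.Adj i (h i))
    (hinj : ∀ i j, i ≠ r → j ≠ r → s(i, h i) = s(j, h j) → i = j) :
    ∀ a b, G.Adj a b → ∃ i, i ≠ r ∧ ((i = a ∧ h i = b) ∨ (i = b ∧ h i = a)) := by
  intro a b hab
  have himg : (univ.erase r).image (fun i => s(i, h i)) = G.edgeFinset := by
    apply Finset.eq_of_subset_of_card_le
    · intro e he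
      obtain ⟨i, hi, rfl⟩ := mem_image.1 he
      rw [SimpleGraph.mem_edgeFinset]
      exact hadj i (ne_of_mem_erase hi)
    · rw [Finset.card_image_of_injOn, card_erase_of_mem (mem_univ r), card_univ]
      · have := hG.card_edgeFinset
        omega
      · intro i hi j hj h'
        exact hinj i j (ne_of_mem_erase (mem_coe.1 hi)) (ne_of_mem_erase (mem_coe.1 hj)) h'
  have hmem : s(a, b) ∈ (univ.erase r).image (fun i => s(i, h i)) := by
    rw [himg, SimpleGraph.mem_edgeFinset]; exact hab
  obtain ⟨i, hi, hi'⟩ := mem_image.1 hmem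
  refine ⟨i, ne_of_mem_erase hi, ?_⟩
  rcases Sym2.eq_iff.1 hi' with h1 | h1
  · exact Or.inl h1
  · exact Or.inr h1

/-- Outside of the core the parent arcs point away from the core. -/
theorem parent_arcsS {k : ℕ} (T : Digraph (Fin (k + 1)))
    (hasym : ∀ a b, T.Adj a b → ¬ T.Adj b a) (htree : (SimpleGraph.fromRel T.Adj).IsTree)
    (S : Finset (Fin (k + 1))) (hreach : ∀ v, ∃ s ∈ S, Relation.ReflTransGen T.Adj s v)
    (r : Fin (k + 1)) (p : Fin (k + 1) → Fin (k + 1)) (d : Fin (k + 1) → ℕ)
    (hrS : r ∈ S) (hd : ∀ i, i ≠ r → d (p i) < d i)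
    (hadj : ∀ i, i ≠ r → (SimpleGraph.fromRel T.Adj).Adj i (p i))
    (hpS : ∀ i ∈ S, i ≠ r → p i ∈ S) :
    ∀ i, i ∉ S → T.Adj (p i) i := by
  have hex : ∀ i, i ∉ S → ∃ j, T.Adj j i := by
    intro i hi
    obtain ⟨s, hs, hsi⟩ := hreach i
    rcases hsi.cases_tail with h | ⟨j, -, hj⟩
    · exact absurd (h ▸ hs) hi
    · exact ⟨j, hj⟩
  choose! h' hh' using hex
  set h : Fin (k + 1) → Fin (k + 1) := fun i => if i ∈ S then p i else h' i with hh
  have hhS : ∀ i ∈ S, h i = p i := fun i hi => if_pos hi
  have hhO : ∀ i, i ∉ S → T.Adj (h i) i := fun i hi => by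
    rw [show h i = h' i from if_neg hi]; exact hh' i hi
  have hhadj : ∀ i, i ≠ r → (SimpleGraph.fromRel T.Adj).Adj i (h i) := by
    intro i hi
    by_cases hiS : i ∈ S
    · rw [hhS i hiS]; exact hadj i hi
    · exact (adj_of_isTree hasym (hhO i hiS)).symm
  have hinj : ∀ i j, i ≠ r → j ≠ r → s(i, h i) = s(j, h j) → i = j := by
    intro i j hi hj hij
    rcases Sym2.eq_iff.1 hij with h1 | h1
    · exact h1.1
    · exfalso
      by_cases hiS : i ∈ S
      · by_cases hjS : j ∈ S
        · have e1 := hd i hi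
          have e2 := hd j hj
          rw [hhS i hiS, hhS j hjS] at h1
          rw [h1.2] at e1
          rw [← h1.1] at e2
          omega
        · have := hpS i hiS hi
          rw [← hhS i hiS, h1.2] at this
          exact hjS this
      · by_cases hjS : j ∈ S
        · have := hpS j hjS hj
          rw [← hhS j hjS, ← h1.1] at this
          exact hiS this
        · have e1 := hhO i hiS
          have e2 := hhO j hjS
          rw [h1.2] at e1
          rw [← h1.1] at e2
          exact hasym _ _ e1 e2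
  have hsurj := edges_of_inj _ htree r h hhadj hinj
  have hmain : ∀ e i, d i = e → i ∉ S → T.Adj (p i) i := by
    intro e
    induction e using Nat.strong_induction_on with
    | _ e ih =>
      intro i hie hiS
      have hi : i ≠ r := fun h => hiS (h ▸ hrS)
      obtain ⟨j, hj, ⟨h1, h2⟩ | ⟨h1, h2⟩⟩ := hsurj _ _ (hadj i hi)
      · -- `j = i`, `h i = p i`
        have h3 := hhO j (h1 ▸ hiS)
        rw [h2, h1] at h3
        exact h3
      · -- `j = p i`, `h (p i) = i`
        exfalso
        by_cases hjS : j ∈ S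
        · have := hpS j hjS hj
          rw [← hhS j hjS, h2] at this
          exact hiS this
        · have hpiS : p i ∉ S := h1 ▸ hjS
          have hpr : p i ≠ r := fun h => hpiS (h ▸ hrS)
          have hpp := ih (d (p i)) (hie ▸ hd i hi) (p i) rfl hpiS
          obtain ⟨j', hj', ⟨h3, h4⟩ | ⟨h3, h4⟩⟩ := hsurj _ _ (adj_of_isTree hasym hpp)
          · -- `j' = p (p i)`, `h j' = p i`
            by_cases hjS' : j' ∈ S
            · have := hpS j' hjS' hj'
              rw [← hhS j' hjS', h4] at this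
              exact hpiS this
            · have h5 := hhO j' hjS'
              rw [h4, h3] at h5
              exact hasym _ _ hpp h5
          · -- `j' = p i`, `h (p i) = p (p i)`
            have h5 : h (p i) = i := h1 ▸ h2
            have h6 : h (p i) = p (p i) := h3 ▸ h4
            have h7 := hd (p i) hpr
            have h8 := hd i hi
            rw [← h6, h5] at h7
            omega
  exact fun i hi => hmain (d i) i rfl hi

end Pool.Helper49.FracBurr
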