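import Pool.Agent.Helper49.FracBurr.GreedyOrd

/-!
# Oriented trees with a small core
-/

set_option autoImplicit false
set_option linter.unusedSectionVars false

namespace Pool.Helper49.FracBurr

open Finset
open scoped Classical

variable {V : Type} [Fintype V]

/-- An oriented tree in which every vertex is reachable from a subtree with `g` edges:
a fractional colouring of total weight `< (2/t)(k-g) + (2/(1-t)) g`. -/
theorem main_mix {k g : ℕ} (T : Digraph (Fin (k + 1)))
    (hasym : ∀ a b, T.Adj a b → ¬ T.Adj b a) (htree : (SimpleGraph.fromRel T.Adj).IsTree)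
    (S : Finset (Fin (k + 1))) (hSc : S.card = g + 1)
    (hScon : ((SimpleGraph.fromRel T.Adj).induce (S : Set (Fin (k + 1)))).Connected)
    (hreach : ∀ v, ∃ s ∈ S, Relation.ReflTransGen T.Adj s v)
    (t : ℝ) (ht : 1 / 2 ≤ t) (ht1 : t < 1)
    (R : V → V → Prop) (hV : Nonempty V) :
    (∃ f : Fin (k + 1) → V, Function.Injective f ∧ ∀ a b, T.Adj a b → R (f a) (f b)) ∨
    ∃ l : Finset V → ℝ, (∀ S, 0 ≤ l S) ∧ (∀ S, l S ≠ 0 → Stab R S) ∧ (∀ v, load l v = 1) ∧
      ∑ S, l S < 2 / t * k + (2 / (1 - t) - 2 / t) * g := by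
  have ht0 : 0 < t := by linarith
  have hs0 : 0 < 1 - t := by linarith
  obtain ⟨m, l, hl0, hls, hl1, hU⟩ := processW R (TrapW R (2 / t) (2 / (1 - t))) 1
    (hyp_mix R t ht0 ht1) univ (univ_nonempty_iff.2 hV) (fun _ => 1) (fun _ _ => zero_lt_one)
  obtain ⟨r, p, d, hrS, hdi, hd, hadj, hpS, hSO⟩ := exists_parentsS _ htree S hScon
  have harcS := parent_arcsS T hasym htree S hreach r p d hrS hd hadj hpS
  have hinjp : ∀ i j, i ≠ r → j ≠ r → s(i, p i) = s(j, p j) → i = j := by
    intro i j hi hj h
    rcases Sym2.eq_iff.1 h with h1 | h1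
    · exact h1.1
    · exfalso
      have e1 := hd i hi
      have e2 := hd j hj
      rw [h1.2] at e1
      rw [← h1.1] at e2
      omega
  have hedge := edges_of_inj _ htree r p hadj hinjp
  rcases greedyOrd r p d (fun i => decide (T.Adj (p i) i)) hdi hd R m hV with
    ⟨φ, hinj, hφ⟩ | ⟨φ, i0, htr⟩
  · left
    refine ⟨φ, hinj, fun a b hab => ?_⟩
    obtain ⟨i, hi, h1 | h1⟩ := hedge a b (adj_of_isTree hasym hab)
    · have h2 := hφ i hi
      obtain ⟨rfl, rfl⟩ := h1
      have h3 : ¬ T.Adj (p i) i := hasym _ _ hab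
      simpa [Sg, h3] using h2
    · have h2 := hφ i hi
      obtain ⟨rfl, rfl⟩ := h1
      simpa [Sg, hab] using h2
  · right
    refine ⟨l, hl0, fun S hS => (hls S hS).2, fun v => hl1 v (mem_univ v), ?_⟩
    -- the last element of the core
    obtain ⟨j0, hj0, hj0max⟩ := Finset.exists_max_image S d ⟨r, hrS⟩
    set U : Finset V := (univ.filter (fun j => d j < d i0)).image φ with hUdef
    set U' : Finset V := (univ.filter (fun j => d j < d i0 ∧ d j < d j0)).image φ with hU'def
    have hUc : U.card ≤ k := by
      refine card_image_le.trans ?_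
      have : (univ.filter (fun j => d j < d i0)) ⊆ univ.erase i0 := by
        intro j hj
        have := (mem_filter.1 hj).2
        exact mem_erase.2 ⟨fun h => by rw [h] at this; exact lt_irrefl _ this, mem_univ _⟩
      have h1 := card_le_card this
      rw [card_erase_of_mem (mem_univ _), card_univ, Fintype.card_fin] at h1
      omega
    have hU'c : U'.card ≤ g := by
      refine card_image_le.trans ?_
      have : (univ.filter (fun j => d j < d i0 ∧ d j < d j0)) ⊆ S.erase j0 := by
        intro j hj
        have h1 := (mem_filter.1 hj).2.2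
        refine mem_erase.2 ⟨fun h => by rw [h] at h1; exact lt_irrefl _ h1, ?_⟩
        by_contra h2
        have := hSO j0 hj0 j h2
        omega
      have h1 := card_le_card this
      rw [card_erase_of_mem hj0, hSc] at h1
      omega
    have hab : 2 / t ≤ 2 / (1 - t) := by
      apply div_le_div_of_nonneg_left (by norm_num) hs0; linarith
    have hα : 0 ≤ 2 / t := by positivity
    have h1 := hU (fun v => (if v ∈ U then 2 / t else 0) +
      (if v ∈ U' then 2 / (1 - t) - 2 / t else 0)) (fun v => by
        have : 0 ≤ 2 / (1 - t) - 2 / t := by linarith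
        show 0 ≤ (if v ∈ U then 2 / t else 0) + (if v ∈ U' then 2 / (1 - t) - 2 / t else 0)
        split_ifs <;> linarith)
      (fun v _ => by
        obtain ⟨i, hi, hii, hmy, hz⟩ := htr v
        refine ⟨φ (p i), mem_univ _, hmy, ?_⟩
        by_cases hs : T.Adj (p i) i
        · -- an arc away from the core
          left
          refine ⟨U, ?_, ?_, ?_⟩
          · exact mem_image_of_mem _ (mem_filter.2 ⟨mem_univ _, (hd i hi).trans_le hii⟩)
          · intro z hz1 hz2
            obtain ⟨j, hj, e⟩ := hz z (mem_filter.1 hz1).2 (by simpa [Sg, hs] using hz2)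
            rw [← e]
            exact mem_image_of_mem _ (mem_filter.2 ⟨mem_univ _, hj.trans_le hii⟩)
          · intro z hz1
            have : 0 ≤ 2 / (1 - t) - 2 / t := by linarith
            show 2 / t ≤ (if z ∈ U then 2 / t else 0) +
              (if z ∈ U' then 2 / (1 - t) - 2 / t else 0)
            rw [if_pos hz1]
            split_ifs <;> linarith
        · -- an arc towards the core
          right
          have hiS : i ∈ S := by
            by_contra h
            exact hs (harcS i h)
          have hij0 : d i ≤ d j0 := hj0max i hiS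
          refine ⟨U', ?_, ?_, ?_⟩
          · exact mem_image_of_mem _ (mem_filter.2 ⟨mem_univ _, (hd i hi).trans_le hii,
              (hd i hi).trans_le hij0⟩)
          · intro z hz1 hz2
            obtain ⟨j, hj, e⟩ := hz z (mem_filter.1 hz1).2 (by simpa [Sg, hs] using hz2)
            rw [← e]
            exact mem_image_of_mem _ (mem_filter.2 ⟨mem_univ _, hj.trans_le hii,
              hj.trans_le hij0⟩)
          · intro z hz1
            have hz2 : z ∈ U := by
              obtain ⟨j, hj, e⟩ := mem_image.1 hz1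
              rw [← e]
              exact mem_image_of_mem _ (mem_filter.2 ⟨mem_univ _, (mem_filter.1 hj).2.1⟩)
            show 2 / (1 - t) ≤ (if z ∈ U then 2 / t else 0) +
              (if z ∈ U' then 2 / (1 - t) - 2 / t else 0)
            rw [if_pos hz1, if_pos hz2]
            linarith)
    have h2 : ∑ v, ((if v ∈ U then 2 / t else 0) +
        (if v ∈ U' then 2 / (1 - t) - 2 / t else 0)) * 1 =
        2 / t * U.card + (2 / (1 - t) - 2 / t) * U'.card := by
      simp only [mul_one]
      rw [Finset.sum_add_distrib, Finset.sum_ite_mem, Finset.sum_ite_mem, univ_inter, univ_inter,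
        Finset.sum_const, Finset.sum_const, nsmul_eq_mul, nsmul_eq_mul]
      ring
    rw [h2, one_mul] at h1
    have h3 : (U.card : ℝ) ≤ k := by exact_mod_cast hUc
    have h4 : (U'.card : ℝ) ≤ g := by exact_mod_cast hU'c
    have h5 := mul_le_mul_of_nonneg_left h3 hα
    have h6 := mul_le_mul_of_nonneg_left h4 (show 0 ≤ 2 / (1 - t) - 2 / t by linarith)
    linarith

/-- The numerical bound. -/
noncomputable def treeBound (k g : ℕ) : ℝ :=
  2 * (Real.sqrt (min (g : ℝ) (k / 2)) + Real.sqrt (k - min (g : ℝ) (k / 2))) ^ 2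

theorem main_core {k g : ℕ} (T : Digraph (Fin (k + 1)))
    (hasym : ∀ a b, T.Adj a b → ¬ T.Adj b a) (htree : (SimpleGraph.fromRel T.Adj).IsTree)
    (S : Finset (Fin (k + 1))) (hSc : S.card = g + 1)
    (hScon : ((SimpleGraph.fromRel T.Adj).induce (S : Set (Fin (k + 1)))).Connected)
    (hreach : ∀ v, ∃ s ∈ S, Relation.ReflTransGen T.Adj s v)
    (R : V → V → Prop) (hV : Nonempty V) :
    (∃ f : Fin (k + 1) → V, Function.Injective f ∧ ∀ a b, T.Adj a b → R (f a) (f b)) ∨
    ∃ l : Finset V → ℝ, (∀ S, 0 ≤ l S) ∧ (∀ S, l S ≠ 0 → Stab R S) ∧ (∀ v, load l v = 1) ∧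
      ∑ S, l S < treeBound k g := by
  by_cases hg0 : g = 0
  · -- an arborescence
    subst hg0
    obtain ⟨r, hr⟩ := card_eq_one.1 (show S.card = 1 by rw [hSc])
    have hr' : ∀ v, Relation.ReflTransGen T.Adj r v := by
      intro v
      obtain ⟨s, hs, h⟩ := hreach v
      rw [hr, mem_singleton] at hs
      rw [← hs]; exact h
    have e : treeBound k 0 = 2 * k := by
      unfold treeBound
      rw [Nat.cast_zero, min_eq_left (by positivity), Real.sqrt_zero, zero_add, sub_zero,
        Real.sq_sqrt (by positivity)]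
    rw [e]
    exact main_out T hasym htree r hr' R hV
  · by_cases hg : (g : ℝ) ≤ k / 2
    · -- a small core
      have hg1 : (1 : ℝ) ≤ g := by exact_mod_cast Nat.one_le_iff_ne_zero.2 hg0
      set x := Real.sqrt (g : ℝ) with hx
      set y := Real.sqrt ((k : ℝ) - g) with hy
      have hxp : 0 < x := Real.sqrt_pos.2 (by linarith)
      have hyp : 0 < y := Real.sqrt_pos.2 (by linarith)
      have hxy : x ≤ y := Real.sqrt_le_sqrt (by linarith)
      have hx2 : x ^ 2 = g := Real.sq_sqrt (by linarith)
      have hy2 : y ^ 2 = k - g := Real.sq_sqrt (by linarith)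
      have hs : 0 < x + y := by linarith
      have h := main_mix (g := g) T hasym htree S hSc hScon hreach (y / (x + y))
        (by rw [div_le_div_iff₀ two_pos hs]; linarith)
        (by rw [div_lt_one hs]; linarith) R hV
      have e1 : 1 - y / (x + y) = x / (x + y) := by field_simp; ring
      have e2 : 2 / (y / (x + y)) * k + (2 / (1 - y / (x + y)) - 2 / (y / (x + y))) * g =
          treeBound k g := by
        unfold treeBound
        rw [min_eq_left hg, ← hx, ← hy, e1]
        have hk : (k : ℝ) = x ^ 2 + y ^ 2 := by linarith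
        rw [hk, ← hx2]
        field_simp
        ring
      rw [e2] at h
      exact h
    · have e : treeBound k g = 4 * k := by
        unfold treeBound
        rw [min_eq_right (le_of_not_ge hg)]
        have h1 : (k : ℝ) - k / 2 = k / 2 := by ring
        rw [h1, ← two_mul, mul_pow, Real.sq_sqrt (by positivity)]
        ring
      rw [e]
      exact main_tree T hasym htree R hV

/-- Both directions. -/
theorem main_core' {k g : ℕ} (T : Digraph (Fin (k + 1)))
    (hasym : ∀ a b, T.Adj a b → ¬ T.Adj b a) (htree : (SimpleGraph.fromRel T.Adj).IsTree)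
    (S : Finset (Fin (k + 1))) (hSc : S.card = g + 1)
    (hScon : ((SimpleGraph.fromRel T.Adj).induce (S : Set (Fin (k + 1)))).Connected)
    (hreach : (∀ v, ∃ s ∈ S, Relation.ReflTransGen T.Adj s v) ∨
      (∀ v, ∃ s ∈ S, Relation.ReflTransGen T.Adj v s))
    (R : V → V → Prop) (hV : Nonempty V) :
    (∃ f : Fin (k + 1) → V, Function.Injective f ∧ ∀ a b, T.Adj a b → R (f a) (f b)) ∨
    ∃ l : Finset V → ℝ, (∀ S, 0 ≤ l S) ∧ (∀ S, l S ≠ 0 → Stab R S) ∧ (∀ v, load l v = 1) ∧
      ∑ S, l S < treeBound k g := by
  rcases hreach with hreach | hreach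
  · exact main_core T hasym htree S hSc hScon hreach R hV
  · let T' : Digraph (Fin (k + 1)) := { Adj := fun a b => T.Adj b a }
    have hG : SimpleGraph.fromRel T'.Adj = SimpleGraph.fromRel T.Adj := by
      ext a b
      simp only [SimpleGraph.fromRel_adj]
      exact and_congr_right fun _ => or_comm
    have hr' : ∀ v, ∃ s ∈ S, Relation.ReflTransGen T'.Adj s v := by
      intro v
      obtain ⟨s, hs, h⟩ := hreach v
      exact ⟨s, hs, h.swap⟩
    rcases main_core T' (fun a b h1 h2 => hasym _ _ h1 h2) (hG ▸ htree) S hSc (by rw [hG]; exact hScon)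
      hr' (fun a b => R b a) hV with ⟨f, hf, h⟩ | ⟨l, h0, hs, h1, h2⟩
    · exact Or.inl ⟨f, hf, fun a b hab => h b a hab⟩
    · exact Or.inr ⟨l, h0, fun S hS => stab_swap (hs S hS), h1, h2⟩

end Pool.Helper49.FracBurr
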