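import Pool.Agent.Helper49.FracBurr.Cover

/-!
# Oriented trees and arborescences in digraphs without cheap fractional colourings
-/

set_option autoImplicit false
set_option linter.unusedSectionVars false

namespace Pool.Helper49.FracBurr

open Finset
open scoped Classical

variable {V : Type} [Fintype V]

theorem adj_of_isTree {k : ℕ} {T : Digraph (Fin (k + 1))}
    (hasym : ∀ a b, T.Adj a b → ¬ T.Adj b a) {a b : Fin (k + 1)} (h : T.Adj a b) :
    (SimpleGraph.fromRel T.Adj).Adj a b := by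
  rw [SimpleGraph.fromRel_adj]
  refine ⟨?_, Or.inl h⟩
  rintro rfl
  exact hasym _ _ h h

/-- Every oriented tree with `k` edges, or a fractional colouring of total weight `< 4k`. -/
theorem main_tree {k : ℕ} (T : Digraph (Fin (k + 1)))
    (hasym : ∀ a b, T.Adj a b → ¬ T.Adj b a) (htree : (SimpleGraph.fromRel T.Adj).IsTree)
    (R : V → V → Prop) (hV : Nonempty V) :
    (∃ f : Fin (k + 1) → V, Function.Injective f ∧ ∀ a b, T.Adj a b → R (f a) (f b)) ∨
    ∃ l : Finset V → ℝ, (∀ S, 0 ≤ l S) ∧ (∀ S, l S ≠ 0 → Stab R S) ∧ (∀ v, load l v = 1) ∧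
      ∑ S, l S < 4 * k := by
  obtain ⟨m, l, hl0, hls, hl1, hU⟩ := process R (TrapB R) (1 / 4) (hyp_two R) univ
    (univ_nonempty_iff.2 hV) (fun _ => 1) (fun _ _ => zero_lt_one)
  obtain ⟨p, d, hpd, -, hedge⟩ := exists_parents _ htree 0
  rcases greedy (0 : Fin (k + 1)) p d (fun i => decide (T.Adj (p i) i))
    (fun i hi => (hpd i hi).1) R m hV with ⟨φ, hinj, hφ⟩ | ⟨U, hUc, hUt⟩
  · left
    refine ⟨φ, hinj, fun a b hab => ?_⟩
    obtain ⟨i, hi, h1 | h1⟩ := hedge a b (adj_of_isTree hasym hab)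
    · have h2 := hφ i hi
      obtain ⟨rfl, rfl⟩ := h1
      have h3 : ¬ T.Adj (p i) i := hasym _ _ hab
      simpa [Sg, h3] using h2
    · have h2 := hφ i hi
      obtain ⟨rfl, rfl⟩ := h1
      simpa [Sg, hab] using h2
  · right
    refine ⟨l, hl0, fun S hS => (hls S hS).2, fun v => hl1 v (mem_univ v), ?_⟩
    have h1 := hU U (fun v _ => by
      obtain ⟨y, hy, hmy, i, hi, hz⟩ := hUt v
      refine ⟨y, hy, mem_univ y, hmy, ?_⟩
      by_cases hs : T.Adj (p i) i
      · left
        intro z hz1 hz2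
        exact hz z (mem_filter.1 hz1).2 (by simpa [Sg, hs] using hz2)
      · right
        intro z hz1 hz2
        exact hz z (mem_filter.1 hz1).2 (by simpa [Sg, hs] using hz2))
    rw [Finset.sum_const, nsmul_eq_mul, mul_one, univ_inter] at h1
    rw [Fintype.card_fin] at hUc
    have h2 : (U.card : ℝ) ≤ k := by exact_mod_cast Nat.lt_succ_iff.1 hUc
    linarith

/-- In an out-arborescence the parent arcs point away from the root. -/
theorem parent_arcs {k : ℕ} (T : Digraph (Fin (k + 1)))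
    (hasym : ∀ a b, T.Adj a b → ¬ T.Adj b a) (htree : (SimpleGraph.fromRel T.Adj).IsTree)
    (r : Fin (k + 1)) (hr : ∀ v, Relation.ReflTransGen T.Adj r v)
    (p : Fin (k + 1) → Fin (k + 1)) (d : Fin (k + 1) → ℕ)
    (hpd : ∀ i, i ≠ r → d (p i) < d i ∧ (SimpleGraph.fromRel T.Adj).Adj i (p i)) :
    ∀ i, i ≠ r → T.Adj (p i) i := by
  have hex : ∀ i, i ≠ r → ∃ j, T.Adj j i := by
    intro i hi
    rcases (hr i).cases_tail with h | ⟨j, -, hj⟩
    · exact absurd h hi
    · exact ⟨j, hj⟩
  choose! h hh using hex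
  have himg : (univ.erase r).image (fun i => s(h i, i)) =
      (SimpleGraph.fromRel T.Adj).edgeFinset := by
    apply Finset.eq_of_subset_of_card_le
    · intro e he
      obtain ⟨i, hi, rfl⟩ := mem_image.1 he
      rw [SimpleGraph.mem_edgeFinset]
      exact adj_of_isTree hasym (hh i (ne_of_mem_erase hi))
    · rw [Finset.card_image_of_injOn, card_erase_of_mem (mem_univ r), card_univ]
      · have := htree.card_edgeFinset
        omega
      · intro i hi j hj hij
        have hi' := hh i (ne_of_mem_erase (mem_coe.1 hi))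
        have hj' := hh j (ne_of_mem_erase (mem_coe.1 hj))
        rcases Sym2.eq_iff.1 hij with h1 | h1
        · exact h1.2
        · exfalso
          rw [h1.1] at hi'
          rw [← h1.2] at hj'
          exact hasym _ _ hi' hj'
  have hsurj : ∀ a b, (SimpleGraph.fromRel T.Adj).Adj a b →
      ∃ j, j ≠ r ∧ ((h j = a ∧ j = b) ∨ (h j = b ∧ j = a)) := by
    intro a b hab
    have hmem : s(a, b) ∈ (univ.erase r).image (fun i => s(h i, i)) := by
      rw [himg, SimpleGraph.mem_edgeFinset]; exact hab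
    obtain ⟨j, hj, hj'⟩ := mem_image.1 hmem
    exact ⟨j, ne_of_mem_erase hj, Sym2.eq_iff.1 hj'⟩
  have hmain : ∀ e i, d i = e → i ≠ r → T.Adj (p i) i := by
    intro e
    induction e using Nat.strong_induction_on with
    | _ e ih =>
      intro i hie hi
      obtain ⟨hdi, hadj⟩ := hpd i hi
      obtain ⟨j, hj, ⟨h1, h2⟩ | ⟨h1, h2⟩⟩ := hsurj _ _ hadj
      · -- the wrong direction
        exfalso
        have hpr : p i ≠ r := h2 ▸ hj
        have hpp := ih (d (p i)) (hie ▸ hdi) (p i) rfl hpr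
        obtain ⟨j', hj', ⟨h3, h4⟩ | ⟨h3, h4⟩⟩ := hsurj _ _ (adj_of_isTree hasym hpp)
        · -- `j' = p i`, `h j' = p (p i)`
          have h5 : h (p i) = i := h2 ▸ h1
          have h6 : h (p i) = p (p i) := h4 ▸ h3
          have h7 := (hpd (p i) hpr).1
          rw [← h6, h5] at h7
          omega
        · have h5 := hh j' hj'
          rw [h3, h4] at h5
          exact hasym _ _ hpp h5
      · have h3 := hh j hj
        rw [h1, h2] at h3
        exact h3
  exact fun i hi => hmain (d i) i rfl hi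

/-- Out-arborescences: a fractional colouring of total weight `< 2k`. -/
theorem main_out {k : ℕ} (T : Digraph (Fin (k + 1)))
    (hasym : ∀ a b, T.Adj a b → ¬ T.Adj b a) (htree : (SimpleGraph.fromRel T.Adj).IsTree)
    (r : Fin (k + 1)) (hr : ∀ v, Relation.ReflTransGen T.Adj r v)
    (R : V → V → Prop) (hV : Nonempty V) :
    (∃ f : Fin (k + 1) → V, Function.Injective f ∧ ∀ a b, T.Adj a b → R (f a) (f b)) ∨
    ∃ l : Finset V → ℝ, (∀ S, 0 ≤ l S) ∧ (∀ S, l S ≠ 0 → Stab R S) ∧ (∀ v, load l v = 1) ∧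
      ∑ S, l S < 2 * k := by
  obtain ⟨m, l, hl0, hls, hl1, hU⟩ := process R (TrapO R) (1 / 2) (hyp_one R) univ
    (univ_nonempty_iff.2 hV) (fun _ => 1) (fun _ _ => zero_lt_one)
  obtain ⟨p, d, hpd, -, hedge⟩ := exists_parents _ htree r
  have hpar := parent_arcs T hasym htree r hr p d hpd
  rcases greedy r p d (fun _ => true)
    (fun i hi => (hpd i hi).1) R m hV with ⟨φ, hinj, hφ⟩ | ⟨U, hUc, hUt⟩
  · left
    refine ⟨φ, hinj, fun a b hab => ?_⟩
    obtain ⟨i, hi, h1 | h1⟩ := hedge a b (adj_of_isTree hasym hab)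
    · obtain ⟨rfl, rfl⟩ := h1
      exact absurd (hpar i hi) (hasym _ _ hab)
    · have h2 := hφ i hi
      obtain ⟨rfl, rfl⟩ := h1
      simpa [Sg] using h2
  · right
    refine ⟨l, hl0, fun S hS => (hls S hS).2, fun v => hl1 v (mem_univ v), ?_⟩
    have h1 := hU U (fun v _ => by
      obtain ⟨y, hy, hmy, i, hi, hz⟩ := hUt v
      refine ⟨y, hy, mem_univ y, hmy, ?_⟩
      intro z hz1 hz2
      exact hz z (mem_filter.1 hz1).2 (by simpa [Sg] using hz2))
    rw [Finset.sum_const, nsmul_eq_mul, mul_one, univ_inter] at h1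
    rw [Fintype.card_fin] at hUc
    have h2 : (U.card : ℝ) ≤ k := by exact_mod_cast Nat.lt_succ_iff.1 hUc
    linarith

/-- Arborescences, directed away from or towards the root. -/
theorem main_arb {k : ℕ} (T : Digraph (Fin (k + 1)))
    (hasym : ∀ a b, T.Adj a b → ¬ T.Adj b a) (htree : (SimpleGraph.fromRel T.Adj).IsTree)
    (r : Fin (k + 1))
    (hr : (∀ v, Relation.ReflTransGen T.Adj r v) ∨ (∀ v, Relation.ReflTransGen T.Adj v r))
    (R : V → V → Prop) (hV : Nonempty V) :
    (∃ f : Fin (k + 1) → V, Function.Injective f ∧ ∀ a b, T.Adj a b → R (f a) (f b)) ∨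
    ∃ l : Finset V → ℝ, (∀ S, 0 ≤ l S) ∧ (∀ S, l S ≠ 0 → Stab R S) ∧ (∀ v, load l v = 1) ∧
      ∑ S, l S < 2 * k := by
  rcases hr with hr | hr
  · exact main_out T hasym htree r hr R hV
  · let T' : Digraph (Fin (k + 1)) := { Adj := fun a b => T.Adj b a }
    have hG : SimpleGraph.fromRel T'.Adj = SimpleGraph.fromRel T.Adj := by
      ext a b
      simp only [SimpleGraph.fromRel_adj]
      exact and_congr_right fun _ => or_comm
    have hr' : ∀ v, Relation.ReflTransGen T'.Adj r v := by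
      intro v
      have := (hr v).swap
      exact this
    rcases main_out T' (fun a b h1 h2 => hasym _ _ h1 h2) (hG ▸ htree) r hr'
      (fun a b => R b a) hV with ⟨f, hf, h⟩ | ⟨l, h0, hs, h1, h2⟩
    · exact Or.inl ⟨f, hf, fun a b hab => h b a hab⟩
    · exact Or.inr ⟨l, h0, fun S hS => stab_swap (hs S hS), h1, h2⟩

end Pool.Helper49.FracBurr
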