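import Pool.Agent.Helper49.FracBurr.Game

/-!
# The load process
-/

set_option autoImplicit false
set_option linter.unusedSectionVars false

namespace Pool.Helper49.FracBurr

open Finset
open scoped Classical

variable {V : Type} [Fintype V]

theorem load_add (μ ν : Finset V → ℝ) (a b : ℝ) (v : V) :
    load (fun S => a * μ S + b * ν S) v = a * load μ v + b * load ν v := by
  unfold load
  rw [Finset.mul_sum, Finset.mul_sum, ← Finset.sum_add_distrib]
  refine Finset.sum_congr rfl fun S _ => ?_
  split_ifs <;> ring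

theorem load_eq_zero {μ : Finset V → ℝ} {A : Finset V} (h : ∀ S, μ S ≠ 0 → S ⊆ A) {v : V}
    (hv : v ∉ A) : load μ v = 0 := by
  unfold load
  refine Finset.sum_eq_zero fun S _ => ?_
  by_cases h1 : v ∈ S
  · rw [if_pos h1]
    by_contra h2
    exact hv (h S h2 h1)
  · rw [if_neg h1]

theorem exists_load_pos {μ : Finset V → ℝ} {A : Finset V} (h0 : ∀ S, 0 ≤ μ S)
    (h : ∀ S, μ S ≠ 0 → S ⊆ A) {S : Finset V} (hS : μ S ≠ 0) {v : V} (hv : v ∈ S) :
    v ∈ A ∧ 0 < load μ v := by
  refine ⟨h S hS hv, ?_⟩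
  unfold load
  have h1 : 0 < (if v ∈ S then μ S else 0) := by
    rw [if_pos hv]; exact lt_of_le_of_ne (h0 S) (Ne.symm hS)
  exact lt_of_lt_of_le h1 (Finset.single_le_sum (f := fun S => if v ∈ S then μ S else 0)
    (fun T _ => by split_ifs <;> [exact h0 T; exact le_refl _]) (mem_univ S))

/-- The load process: a fractional colouring of `(A, w)` with a rank function. -/
theorem process (R : V → V → Prop) (Trap : Finset V → V → Finset V → Prop) (c : ℝ)
    (H : ∀ A : Finset V, A.Nonempty → ∃ μ : Finset V → ℝ, (∀ S, 0 ≤ μ S) ∧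
      (∀ S, μ S ≠ 0 → S ⊆ A ∧ Stab R S) ∧ ∑ S, μ S = 1 ∧ (∃ v ∈ A, 0 < load μ v) ∧
      ∀ y ∈ A, ∀ U : Finset V, y ∈ U → Trap A y U → c + load μ y / 4 ≤ ∑ v ∈ U, load μ v) :
    ∀ A : Finset V, A.Nonempty → ∀ w : V → ℝ, (∀ v ∈ A, 0 < w v) →
      ∃ (m : V → ℕ) (l : Finset V → ℝ), (∀ S, 0 ≤ l S) ∧ (∀ S, l S ≠ 0 → S ⊆ A ∧ Stab R S) ∧
        (∀ v ∈ A, load l v = w v) ∧
        ∀ U : Finset V, (∀ v ∈ A, ∃ y ∈ U, y ∈ A ∧ m y ≤ m v ∧
            Trap (A.filter (fun z => m z ≤ m v)) y U) →
          c * ∑ S, l S < ∑ v ∈ A ∩ U, w v := by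
  intro A
  induction A using Finset.strongInduction with
  | H A ih =>
    intro hA w hw
    obtain ⟨μ, h0, hsupp, hone, hpos, htrap⟩ := H A hA
    have hsA : ∀ S, μ S ≠ 0 → S ⊆ A := fun S hS => (hsupp S hS).1
    -- the duration of the first stage
    have hP : (A.filter (fun v => 0 < load μ v)).Nonempty := by
      obtain ⟨v, hv, hv'⟩ := hpos
      exact ⟨v, mem_filter.2 ⟨hv, hv'⟩⟩
    obtain ⟨v0, hv0, hmin⟩ := Finset.exists_min_image _ (fun v => w v / load μ v) hP
    obtain ⟨hv0A, hv0p⟩ := mem_filter.1 hv0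
    set δ := w v0 / load μ v0 with hδ
    have hδpos : 0 < δ := div_pos (hw v0 hv0A) hv0p
    have hle : ∀ v ∈ A, δ * load μ v ≤ w v := by
      intro v hv
      rcases (load_nonneg h0 v).eq_or_lt with h1 | h1
      · rw [← h1, mul_zero]; exact (hw v hv).le
      · exact (le_div_iff₀ h1).1 (hmin v (mem_filter.2 ⟨hv, h1⟩))
    have hv0e : δ * load μ v0 = w v0 := by rw [hδ, div_mul_cancel₀ _ hv0p.ne']
    set A' := A.filter (fun v => δ * load μ v < w v) with hA'
    have hsub : A' ⊂ A := by
      refine (Finset.ssubset_iff_of_subset (filter_subset _ _)).2 ⟨v0, hv0A, ?_⟩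
      intro h
      exact absurd hv0e (mem_filter.1 h).2.ne
    have hout : ∀ v ∈ A, v ∉ A' → w v = δ * load μ v := by
      intro v hv hv'
      refine le_antisymm ?_ (hle v hv)
      by_contra h
      exact hv' (mem_filter.2 ⟨hv, not_le.1 h⟩)
    have hUA : ∀ U : Finset V, ∑ v ∈ U, load μ v = ∑ v ∈ A ∩ U, load μ v := by
      intro U
      refine (Finset.sum_subset inter_subset_right fun v hv hv' => ?_).symm
      exact load_eq_zero hsA (fun h => hv' (mem_inter.2 ⟨h, hv⟩))
    rcases A'.eq_empty_or_nonempty with hemp | hne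
    · -- the last stage
      refine ⟨fun _ => 0, fun S => δ * μ S, fun S => mul_nonneg hδpos.le (h0 S), ?_, ?_, ?_⟩
      · intro S hS
        exact hsupp S (fun h => hS (by show δ * μ S = 0; rw [h, mul_zero]))
      · intro v hv
        have h1 := load_add μ μ δ 0 v
        simp only [zero_mul, add_zero] at h1
        rw [h1, hout v hv (by rw [hemp]; exact notMem_empty v)]
      · intro U hU
        obtain ⟨v, hv⟩ := hA
        obtain ⟨y, hyU, hyA, -, hT⟩ := hU v hv
        have e1 : A.filter (fun _ => (0 : ℕ) ≤ 0) = A := by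
          ext x; simp
        rw [e1] at hT
        have h1 := htrap y hyA U hyU hT
        have h2 : 0 < load μ y := by
          have h3 := hw y hyA
          rw [hout y hyA (by rw [hemp]; exact notMem_empty y)] at h3
          exact (mul_pos_iff_of_pos_left hδpos).1 h3
        rw [hUA U] at h1
        have h4 : ∑ v ∈ A ∩ U, w v = δ * ∑ v ∈ A ∩ U, load μ v := by
          rw [Finset.mul_sum]
          exact Finset.sum_congr rfl fun x hx =>
            hout x (mem_inter.1 hx).1 (by rw [hemp]; exact notMem_empty x)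
        have h5 : ∑ S, δ * μ S = δ := by rw [← Finset.mul_sum, hone, mul_one]
        rw [h5, h4, mul_comm c δ]
        exact mul_lt_mul_of_pos_left (by linarith) hδpos
    · -- an earlier stage
      obtain ⟨m', l', hl0, hlsupp, hlload, hlU⟩ := ih A' hsub hne
        (fun v => w v - δ * load μ v) (fun v hv => by
          have := (mem_filter.1 hv).2
          show 0 < w v - δ * load μ v
          linarith)
      have hlsA : ∀ S, l' S ≠ 0 → S ⊆ A' := fun S hS => (hlsupp S hS).1
      set N := ∑ v, m' v + 1 with hN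
      have hN' : ∀ v, m' v < N := fun v =>
        Nat.lt_succ_of_le (Finset.single_le_sum (f := m') (fun _ _ => Nat.zero_le _) (mem_univ v))
      set m : V → ℕ := fun v => if v ∈ A' then m' v else N with hm
      have hmi : ∀ v, v ∈ A' → m v = m' v := fun v hv => if_pos hv
      have hmo : ∀ v, v ∉ A' → m v = N := fun v hv => if_neg hv
      refine ⟨m, fun S => 1 * l' S + δ * μ S, ?_, ?_, ?_, ?_⟩
      · intro S
        have := mul_nonneg hδpos.le (h0 S)
        have := hl0 S
        show 0 ≤ 1 * l' S + δ * μ S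
        linarith
      · intro S hS
        by_cases h1 : l' S = 0
        · refine hsupp S (fun h => hS ?_)
          show 1 * l' S + δ * μ S = 0
          rw [h1, h]; ring
        · exact ⟨(hlsA S h1).trans hsub.subset, (hlsupp S h1).2⟩
      · intro v hv
        rw [load_add]
        by_cases h1 : v ∈ A'
        · rw [hlload v h1]; ring
        · rw [load_eq_zero hlsA h1, hout v hv h1]; ring
      · intro U hU
        have h1 : c * ∑ S, l' S < ∑ v ∈ A' ∩ U, (w v - δ * load μ v) := by
          apply hlU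
          intro v hv
          obtain ⟨y, hyU, hyA, hmy, hT⟩ := hU v (hsub.subset hv)
          have hyA' : y ∈ A' := by
            by_contra h
            rw [hmo y h, hmi v hv] at hmy
            exact absurd (hN' v) (not_lt.2 hmy)
          refine ⟨y, hyU, hyA', ?_, ?_⟩
          · rw [← hmi y hyA', ← hmi v hv]; exact hmy
          · have e1 : A.filter (fun z => m z ≤ m v) = A'.filter (fun z => m' z ≤ m' v) := by
              ext z
              simp only [mem_filter]
              constructor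
              · rintro ⟨hz, hz'⟩
                have hzA' : z ∈ A' := by
                  by_contra h
                  rw [hmo z h, hmi v hv] at hz'
                  exact absurd (hN' v) (not_lt.2 hz')
                refine ⟨hzA', ?_⟩
                rw [← hmi z hzA', ← hmi v hv]; exact hz'
              · rintro ⟨hz, hz'⟩
                refine ⟨hsub.subset hz, ?_⟩
                rw [hmi z hz, hmi v hv]; exact hz'
            rw [← e1]; exact hT
        have h2 : c * δ ≤ δ * ∑ v ∈ A ∩ U, load μ v := by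
          have hv0' : v0 ∉ A' := fun h => absurd hv0e (mem_filter.1 h).2.ne
          obtain ⟨y, hyU, hyA, -, hT⟩ := hU v0 hv0A
          have e1 : A.filter (fun z => m z ≤ m v0) = A := by
            rw [hmo v0 hv0']
            refine Finset.filter_true_of_mem fun z _ => ?_
            by_cases h : z ∈ A'
            · rw [hmi z h]; exact (hN' z).le
            · rw [hmo z h]
          rw [e1] at hT
          have h3 := htrap y hyA U hyU hT
          have h4 := load_nonneg h0 y
          rw [hUA U] at h3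
          rw [mul_comm c δ]
          exact mul_le_mul_of_nonneg_left (by linarith) hδpos.le
        have h3 : ∑ v ∈ A' ∩ U, (w v - δ * load μ v) = ∑ v ∈ A ∩ U, (w v - δ * load μ v) := by
          refine Finset.sum_subset
            (fun x hx => mem_inter.2 ⟨hsub.subset (mem_inter.1 hx).1, (mem_inter.1 hx).2⟩)
            fun x hx hx' => ?_
          have hx1 := mem_inter.1 hx
          have := hout x hx1.1 (fun h => hx' (mem_inter.2 ⟨h, hx1.2⟩))
          linarith
        have h4 : ∑ S, (1 * l' S + δ * μ S) = ∑ S, l' S + δ := by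
          rw [Finset.sum_add_distrib, ← Finset.mul_sum, ← Finset.mul_sum, hone]; ring
        rw [h3, Finset.sum_sub_distrib, ← Finset.mul_sum] at h1
        rw [h4, mul_add]
        linarith

/-- The trap of one type. -/
def TrapO (R : V → V → Prop) (A : Finset V) (y : V) (U : Finset V) : Prop :=
  ∀ z ∈ A, R y z → z ∈ U

theorem load_ge {R : V → V → Prop} {A : Finset V} {μ : Finset V → ℝ} (h0 : ∀ S, 0 ≤ μ S)
    (hsupp : ∀ S, μ S ≠ 0 → S ⊆ A ∧ Stab R S) {y : V} (hy : 1 / 2 ≤ ∑ S, μ S * pay R S y)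
    {U : Finset V} (hyU : y ∈ U) (hT : TrapO R A y U) :
    1 / 2 + load μ y / 2 ≤ ∑ v ∈ U, load μ v := by
  have h1 : ∑ S, (μ S * pay R S y + (if y ∈ S then μ S else 0) / 2) ≤
      ∑ S, μ S * ((S ∩ U).card : ℝ) := by
    refine Finset.sum_le_sum fun S _ => ?_
    by_cases hS : μ S = 0
    · rw [hS]; simp
    · obtain ⟨hSA, hst⟩ := hsupp S hS
      have key : pay R S y + (if y ∈ S then (1 : ℝ) else 0) / 2 ≤ ((S ∩ U).card : ℝ) := by
        unfold pay
        by_cases h1 : ∃ w ∈ S, w ≠ y ∧ R y w
        · obtain ⟨w, hw, hwy, hR⟩ := h1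
          rw [if_pos ⟨w, hw, hwy, hR⟩]
          have h2 : y ∉ S := fun h => hst y h w hw hwy.symm hR
          rw [if_neg h2]
          have h3 : w ∈ S ∩ U := mem_inter.2 ⟨hw, hT w (hSA hw) hR⟩
          have h4 : 1 ≤ (S ∩ U).card := Finset.card_pos.2 ⟨w, h3⟩
          have h5 : (1 : ℝ) ≤ ((S ∩ U).card : ℝ) := by exact_mod_cast h4
          linarith
        · rw [if_neg h1]
          by_cases h2 : y ∈ S
          · rw [if_pos h2, if_pos h2]
            have h4 : 1 ≤ (S ∩ U).card := Finset.card_pos.2 ⟨y, mem_inter.2 ⟨h2, hyU⟩⟩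
            have h5 : (1 : ℝ) ≤ ((S ∩ U).card : ℝ) := by exact_mod_cast h4
            linarith
          · rw [if_neg h2, if_neg h2]
            simp
      have h6 := mul_le_mul_of_nonneg_left key (h0 S)
      have h7 : (if y ∈ S then μ S else 0) = μ S * (if y ∈ S then (1 : ℝ) else 0) := by
        split_ifs <;> simp
      rw [h7]
      linarith
  rw [sum_load]
  rw [Finset.sum_add_distrib, ← Finset.sum_div] at h1
  have h2 : load μ y = ∑ S, if y ∈ S then μ S else 0 := rfl
  rw [← h2] at h1
  linarith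

theorem hyp_one (R : V → V → Prop) (A : Finset V) (hA : A.Nonempty) :
    ∃ μ : Finset V → ℝ, (∀ S, 0 ≤ μ S) ∧
      (∀ S, μ S ≠ 0 → S ⊆ A ∧ Stab R S) ∧ ∑ S, μ S = 1 ∧ (∃ v ∈ A, 0 < load μ v) ∧
      ∀ y ∈ A, ∀ U : Finset V, y ∈ U → TrapO R A y U →
        1 / 2 + load μ y / 4 ≤ ∑ v ∈ U, load μ v := by
  obtain ⟨μ, h0, hs, h1, hg⟩ := exists_game R A
  refine ⟨μ, h0, hs, h1, ?_, ?_⟩
  · obtain ⟨v, hv⟩ := hA
    have h2 := hg v hv
    obtain ⟨S, -, hS⟩ : ∃ S ∈ (univ : Finset (Finset V)), 0 < μ S * pay R S v := by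
      by_contra hcon
      push Not at hcon
      have := Finset.sum_nonpos hcon
      linarith
    have hS0 : μ S ≠ 0 := fun h => by rw [h, zero_mul] at hS; exact lt_irrefl _ hS
    have hSn : ∃ x, x ∈ S := by
      by_contra hcon
      push Not at hcon
      have : pay R S v = 0 := by
        unfold pay
        rw [if_neg (fun ⟨w, hw, _⟩ => hcon w hw), if_neg (hcon v)]
      rw [this, mul_zero] at hS
      exact lt_irrefl _ hS
    obtain ⟨x, hx⟩ := hSn
    exact ⟨x, exists_load_pos h0 (fun S hS => (hs S hS).1) hS0 hx⟩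
  · intro y hy U hyU hT
    have := load_ge h0 hs (hg y hy) hyU hT
    have := load_nonneg h0 y
    linarith

/-- The trap of two types. -/
def TrapB (R : V → V → Prop) (A : Finset V) (y : V) (U : Finset V) : Prop :=
  TrapO R A y U ∨ TrapO (fun a b => R b a) A y U

theorem hyp_two (R : V → V → Prop) (A : Finset V) (hA : A.Nonempty) :
    ∃ μ : Finset V → ℝ, (∀ S, 0 ≤ μ S) ∧
      (∀ S, μ S ≠ 0 → S ⊆ A ∧ Stab R S) ∧ ∑ S, μ S = 1 ∧ (∃ v ∈ A, 0 < load μ v) ∧
      ∀ y ∈ A, ∀ U : Finset V, y ∈ U → TrapB R A y U →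
        1 / 4 + load μ y / 4 ≤ ∑ v ∈ U, load μ v := by
  obtain ⟨μ, h0, hs, h1, hg⟩ := exists_game R A
  obtain ⟨ν, k0, ks, k1, kg⟩ := exists_game (fun a b => R b a) A
  have ks' : ∀ S, ν S ≠ 0 → S ⊆ A ∧ Stab (fun a b => R b a) S := ks
  have hload : ∀ v, load (fun S => (1 / 2) * μ S + (1 / 2) * ν S) v =
      (1 / 2) * load μ v + (1 / 2) * load ν v := fun v => load_add μ ν _ _ v
  refine ⟨fun S => (1 / 2) * μ S + (1 / 2) * ν S, ?_, ?_, ?_, ?_, ?_⟩
  · intro S
    have := h0 S
    have := k0 S
    show 0 ≤ (1 / 2) * μ S + (1 / 2) * ν S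
    linarith
  · intro S hS
    by_cases h : μ S = 0
    · have h' : ν S ≠ 0 := by
        intro h'
        apply hS
        show (1 / 2) * μ S + (1 / 2) * ν S = 0
        rw [h, h']; ring
      exact ⟨(ks' S h').1, stab_swap (ks' S h').2⟩
    · exact hs S h
  · rw [Finset.sum_add_distrib, ← Finset.mul_sum, ← Finset.mul_sum, h1, k1]; ring
  · obtain ⟨v, hv⟩ := hA
    have h2 := hg v hv
    obtain ⟨S, -, hS⟩ : ∃ S ∈ (univ : Finset (Finset V)), 0 < μ S * pay R S v := by
      by_contra hcon
      push Not at hcon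
      have := Finset.sum_nonpos hcon
      linarith
    have hS0 : μ S ≠ 0 := fun h => by rw [h, zero_mul] at hS; exact lt_irrefl _ hS
    have hSn : ∃ x, x ∈ S := by
      by_contra hcon
      push Not at hcon
      have : pay R S v = 0 := by
        unfold pay
        rw [if_neg (fun ⟨w, hw, _⟩ => hcon w hw), if_neg (hcon v)]
      rw [this, mul_zero] at hS
      exact lt_irrefl _ hS
    obtain ⟨x, hx⟩ := hSn
    obtain ⟨hxA, hxp⟩ := exists_load_pos h0 (fun S hS => (hs S hS).1) hS0 hx
    refine ⟨x, hxA, ?_⟩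
    rw [hload]
    have := load_nonneg k0 x
    linarith
  · intro y hy U hyU hT
    have e1 : ∑ v ∈ U, load (fun S => (1 / 2) * μ S + (1 / 2) * ν S) v =
        (1 / 2) * ∑ v ∈ U, load μ v + (1 / 2) * ∑ v ∈ U, load ν v := by
      rw [Finset.mul_sum, Finset.mul_sum, ← Finset.sum_add_distrib]
      exact Finset.sum_congr rfl fun v _ => hload v
    rw [e1, hload]
    have p1 := load_nonneg h0 y
    have p2 := load_nonneg k0 y
    have p3 : load μ y ≤ ∑ v ∈ U, load μ v :=
      Finset.single_le_sum (f := load μ) (fun v _ => load_nonneg h0 v) hyU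
    have p4 : load ν y ≤ ∑ v ∈ U, load ν v :=
      Finset.single_le_sum (f := load ν) (fun v _ => load_nonneg k0 v) hyU
    rcases hT with hT | hT
    · have := load_ge h0 hs (hg y hy) hyU hT
      linarith
    · have := load_ge k0 ks' (kg y hy) hyU hT
      linarith

end Pool.Helper49.FracBurr
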